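import Mathlib

set_option autoImplicit false

open IsLocalRing
open scoped Pointwise

namespace Pool.Agent.Lib.MP_86e60f_al.An

/-- The elementary properties of the singularity `x y = z ^ n` that the proofs use. -/
structure IsAn (A : Type) [CommRing A] [IsLocalRing A] (x y z : A) (n : ℕ) : Prop where
  hn : 2 ≤ n
  rel : x * y = z ^ n
  max : maximalIdeal A = Ideal.span {x, y, z}
  reg : ∀ i ≤ n, ∀ a, y * a ∈ Ideal.span {x, z ^ i} → a ∈ Ideal.span {x, z ^ i}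
  x2 : x ∉ maximalIdeal A ^ 2
  zx : ∀ i < n, z ^ i ∉ Ideal.span {x}

section NF

variable {A : Type} [CommRing A] [IsLocalRing A] {x y z : A} {n : ℕ}

theorem IsAn.x_mem (h : IsAn A x y z n) : x ∈ maximalIdeal A :=
  h.max ▸ Ideal.subset_span (by simp)

theorem IsAn.y_mem (h : IsAn A x y z n) : y ∈ maximalIdeal A :=
  h.max ▸ Ideal.subset_span (by simp)

theorem IsAn.z_mem (h : IsAn A x y z n) : z ∈ maximalIdeal A :=
  h.max ▸ Ideal.subset_span (by simp)

theorem IsAn.x_ne (h : IsAn A x y z n) : x ≠ 0 := fun e => h.x2 (e ▸ Submodule.zero_mem _)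

theorem IsAn.z_ne (h : IsAn A x y z n) : z ≠ 0 := fun e =>
  h.zx 1 (by have := h.hn; omega) (by rw [pow_one, e]; exact Submodule.zero_mem _)

theorem IsAn.y_ne [IsDomain A] (h : IsAn A x y z n) : y ≠ 0 := fun e =>
  pow_ne_zero n h.z_ne (by rw [← h.rel, e, mul_zero])

/-- Nakayama's lemma for periodic filtrations. -/
theorem IsAn.nak (h : IsAn A x y z n) {W : Type} [AddCommGroup W] [Module A W]
    (F D : ℤ → Submodule A W) (Fm : ∀ i, F i ≤ F (i + 1)) (Dm : ∀ i, D i ≤ D (i + 1))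
    (Fz : ∀ i, ∀ ξ ∈ F (i + 1), z • ξ ∈ F i) (Dz : ∀ i, ∀ ξ ∈ D (i + 1), z • ξ ∈ D i)
    (Fx : ∀ i, ∀ ξ ∈ F (i + n), x • ξ ∈ F i) (Fx' : ∀ i, ∀ ξ ∈ F (i - n), ∃ η ∈ F i, ξ = x • η)
    (gen : ∀ i, ∀ ξ ∈ F i, ∃ d ∈ D i, ∃ a ∈ F (i - 1), ∃ b ∈ F (i + 1), ξ = d + a + z • b)
    (i : ℤ) (fg : (F i).FG) : F i ≤ D i := by
  have Fmono : Monotone F := monotone_int_of_le_succ Fm
  have Dmono : Monotone D := monotone_int_of_le_succ Dm
  have Fzs : ∀ (s : ℕ) (i : ℤ), ∀ ξ ∈ F (i + s), z ^ s • ξ ∈ F i := by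
    intro s
    induction s with
    | zero => intro i ξ hξ; simpa using hξ
    | succ s ih =>
      intro i ξ hξ
      rw [pow_succ', mul_smul]
      exact Fz i _ (ih (i + 1) ξ (by convert hξ using 2; push_cast; ring))
  have Dzs : ∀ (s : ℕ) (i : ℤ), ∀ ξ ∈ D (i + s), z ^ s • ξ ∈ D i := by
    intro s
    induction s with
    | zero => intro i ξ hξ; simpa using hξ
    | succ s ih =>
      intro i ξ hξ
      rw [pow_succ', mul_smul]
      exact Dz i _ (ih (i + 1) ξ (by convert hξ using 2; push_cast; ring))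
  have key : ∀ s : ℕ, ∀ ξ ∈ F i, ∃ d ∈ D i, ∃ c ∈ F i, ∃ a ∈ F (i - (s + 1)),
      ∃ b ∈ F (i + (s + 1 : ℕ)), ξ = d + z • c + a + z ^ (s + 1) • b := by
    intro s
    induction s with
    | zero =>
      intro ξ hξ
      obtain ⟨d, hd, a, ha, b, hb, e⟩ := gen i ξ hξ
      exact ⟨d, hd, 0, Submodule.zero_mem _, a, by simpa using ha, b, by simpa using hb,
        by simpa using e⟩
    | succ s ih =>
      intro ξ hξ
      obtain ⟨d, hd, c, hc, a, ha, b, hb, e⟩ := ih ξ hξ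
      obtain ⟨d1, hd1, a1, ha1, b1, hb1, e1⟩ := gen _ a ha
      obtain ⟨d2, hd2, a2, ha2, b2, hb2, e2⟩ := gen _ b hb
      refine ⟨d + d1 + z ^ (s + 1) • d2, ?_, c + b1 + z ^ s • a2, ?_, a1, ?_, b2, ?_, ?_⟩
      · exact add_mem (add_mem hd (Dmono (by omega) hd1)) (Dzs _ _ _ hd2)
      · refine add_mem (add_mem hc (Fmono (by omega) hb1)) (Fzs _ _ _ ?_)
        convert ha2 using 2; push_cast; ring
      · convert ha1 using 2; push_cast; ring
      · convert hb2 using 2; push_cast; ring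
      · rw [e, e1, e2]
        simp only [smul_add, smul_smul, pow_succ]
        module
  refine Submodule.le_of_le_smul_of_le_jacobson_bot (I := maximalIdeal A) fg
    (by rw [jacobson_eq_maximalIdeal ⊥ bot_ne_top]) fun ξ hξ => ?_
  obtain ⟨s, hs⟩ : ∃ s, n = s + 1 := ⟨n - 1, by have := h.hn; omega⟩
  obtain ⟨d, hd, c, hc, a, ha, b, hb, e⟩ := key s ξ hξ
  obtain ⟨η, hη, rfl⟩ := Fx' i a (by rw [hs]; exact_mod_cast ha)
  rw [e, ← hs, ← h.rel, mul_comm, mul_smul, add_assoc, add_assoc]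
  refine Submodule.add_mem_sup hd (add_mem ?_ (add_mem ?_ ?_))
  · exact Submodule.smul_mem_smul h.z_mem hc
  · exact Submodule.smul_mem_smul h.x_mem hη
  · exact Submodule.smul_mem_smul h.y_mem (Fx i b (hs ▸ hb))

end NF

section Filt

variable {A : Type} [CommRing A] (K : Type) [Field K] [Algebra A K] (x y z : A)
  {V : Type} [AddCommGroup V] [Module K V] [Module A V] [IsScalarTower A K V]

/-- The filtration of the generic fibre attached to a lattice. -/
def filt (X : Submodule A V) (j : ℤ) : Submodule A V where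
  carrier := {ξ | (∃ N : ℕ, x ^ N • ξ ∈ X) ∧ ∃ N : ℕ, y ^ N • (algebraMap A K z ^ j • ξ) ∈ X}
  zero_mem' := ⟨⟨0, by simp⟩, ⟨0, by simp⟩⟩
  add_mem' := by
    rintro a b ⟨⟨N1, h1⟩, N2, h2⟩ ⟨⟨N3, h3⟩, N4, h4⟩
    refine ⟨⟨N1 + N3, ?_⟩, N2 + N4, ?_⟩
    · rw [smul_add]
      refine add_mem ?_ ?_
      · rw [add_comm, pow_add, mul_smul]; exact X.smul_mem _ h1
      · rw [pow_add, mul_smul]; exact X.smul_mem _ h3
    · rw [smul_add, smul_add]
      refine add_mem ?_ ?_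
      · rw [add_comm, pow_add, mul_smul]; exact X.smul_mem _ h2
      · rw [pow_add, mul_smul]; exact X.smul_mem _ h4
  smul_mem' := by
    rintro c a ⟨⟨N1, h1⟩, N2, h2⟩
    refine ⟨⟨N1, ?_⟩, N2, ?_⟩
    · rw [smul_comm]; exact X.smul_mem _ h1
    · rw [smul_comm _ c, smul_comm _ c]; exact X.smul_mem _ h2

variable {K x y z}

theorem mem_filt {X : Submodule A V} {j : ℤ} {ξ : V} : ξ ∈ filt K x y z X j ↔
    (∃ N : ℕ, x ^ N • ξ ∈ X) ∧ ∃ N : ℕ, y ^ N • (algebraMap A K z ^ j • ξ) ∈ X := Iff.rfl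

/-- Products respect the filtrations. -/
theorem filt_mul (hz : algebraMap A K z ≠ 0) {X : Submodule A V} {i j : ℤ} {a : K} {ξ : V}
    (ha : a ∈ filt K x y z (1 : Submodule A K) i) (hξ : ξ ∈ filt K x y z X j) :
    a • ξ ∈ filt K x y z X (i + j) := by
  obtain ⟨⟨N1, h1⟩, N2, h2⟩ := ha
  obtain ⟨⟨N3, h3⟩, N4, h4⟩ := hξ
  obtain ⟨c1, e1⟩ := Submodule.mem_one.1 h1
  obtain ⟨c2, e2⟩ := Submodule.mem_one.1 h2
  refine ⟨⟨N1 + N3, ?_⟩, N2 + N4, ?_⟩
  · have : x ^ (N1 + N3) • a • ξ = c1 • x ^ N3 • ξ := by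
      rw [← algebraMap_smul K c1, e1, ← algebraMap_smul K (x ^ (N1 + N3)),
        ← algebraMap_smul K (x ^ N3), Algebra.smul_def, smul_smul, smul_smul, pow_add, map_mul]
      congr 1; ring
    rw [this]; exact X.smul_mem _ h3
  · have : y ^ (N2 + N4) • algebraMap A K z ^ (i + j) • a • ξ =
        c2 • y ^ N4 • algebraMap A K z ^ j • ξ := by
      rw [← algebraMap_smul K c2, e2, ← algebraMap_smul K (y ^ (N2 + N4)),
        ← algebraMap_smul K (y ^ N4), Algebra.smul_def, smul_smul, smul_smul, smul_smul,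
        smul_smul, pow_add, map_mul, zpow_add₀ hz, smul_eq_mul]
      congr 1; ring
    rw [this]; exact X.smul_mem _ h4

theorem mem_filt_one {j : ℤ} {a : K} (N N' : ℕ) (c c' : A)
    (h1 : algebraMap A K c = algebraMap A K x ^ N * a)
    (h2 : algebraMap A K c' = algebraMap A K y ^ N' * (algebraMap A K z ^ j * a)) :
    a ∈ filt K x y z (1 : Submodule A K) j :=
  ⟨⟨N, Submodule.mem_one.2 ⟨c, by rw [h1, Algebra.smul_def, map_pow]⟩⟩,
    N', Submodule.mem_one.2 ⟨c', by rw [h2, Algebra.smul_def, map_pow, smul_eq_mul]⟩⟩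

theorem filt_koszul (hz : algebraMap A K z ≠ 0) {X : Submodule A V} {i j : ℤ} {ξ : V}
    (h1 : ξ ∈ filt K x y z X i) (h2 : z • ξ ∈ filt K x y z X (j - 1)) :
    ξ ∈ filt K x y z X j := by
  refine ⟨h1.1, ?_⟩
  obtain ⟨N, hN⟩ := h2.2
  refine ⟨N, ?_⟩
  rwa [← algebraMap_smul K z, smul_smul (algebraMap A K z ^ (j - 1)), ← zpow_add_one₀ hz,
    sub_add_cancel] at hN

theorem filt_zero {X : Submodule A V} (hS : ∀ f : V, x • f ∈ X → y • f ∈ X → f ∈ X) :
    filt K x y z X 0 = X := by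
  refine le_antisymm ?_ fun ξ hξ => ⟨⟨0, by simpa using hξ⟩, 0, by simpa using hξ⟩
  rintro ξ ⟨⟨a, ha⟩, b, hb⟩
  rw [zpow_zero, one_smul] at hb
  induction a generalizing b ξ with
  | zero => simpa using ha
  | succ a iha =>
    induction b generalizing ξ with
    | zero => simpa using hb
    | succ b ihb =>
      refine hS ξ (iha (by rwa [smul_smul, ← pow_succ]) (b + 1) ?_) (ihb ?_ ?_)
      · rw [smul_comm]; exact X.smul_mem _ hb
      · rw [smul_comm]; exact X.smul_mem _ ha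
      · rwa [smul_smul, ← pow_succ]

end Filt

end Pool.Agent.Lib.MP_86e60f_al.An
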