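import Mathlib
import Pool.Agent.Lib.MP_86e60f_al.An.Filt

set_option autoImplicit false

open IsLocalRing

namespace Pool.Agent.Lib.MP_86e60f_al.An

variable {A : Type} [CommRing A] [IsLocalRing A] [IsDomain A] {K : Type} [Field K] [Algebra A K]
  [FaithfulSMul A K] {x y z : A} {n : ℕ}
  {V : Type} [AddCommGroup V] [Module K V] [Module A V] [IsScalarTower A K V]

theorem alg_ne (K : Type) [Field K] [Algebra A K] [FaithfulSMul A K] {a : A} (ha : a ≠ 0) :
    algebraMap A K a ≠ 0 := fun e =>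
  ha (FaithfulSMul.algebraMap_injective A K (by rw [e, map_zero]))

theorem IsAn.div_x (h : IsAn A x y z n) {a b : A} (e : y * a = x * b) : ∃ c, a = x * c := by
  have h1 := h.reg n le_rfl a (e ▸ Ideal.mul_mem_right _ _ (Ideal.subset_span (by simp)))
  obtain ⟨u, v, huv⟩ := Ideal.mem_span_pair.1 h1
  exact ⟨u + v * y, by rw [← huv, ← h.rel]; ring⟩

namespace IsAn

variable (h : IsAn A x y z n)
include h

theorem one_mem : (1 : K) ∈ filt K x y z (1 : Submodule A K) 1 :=
  mem_filt_one 0 0 1 z (by simp) (by simp)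

theorem z_mem_filt : algebraMap A K z ∈ filt K x y z (1 : Submodule A K) (-1) :=
  mem_filt_one 0 0 z 1 (by simp) (by simp [alg_ne K h.z_ne])

theorem relK : algebraMap A K z ^ (n : ℤ) = algebraMap A K x * algebraMap A K y := by
  rw [← map_mul, h.rel, map_pow, zpow_natCast]

theorem x_zpow (q : ℤ) : algebraMap A K x ^ q ∈ filt K x y z (1 : Submodule A K) (-(n * q)) := by
  have hx := alg_ne K h.x_ne
  have hy := alg_ne K h.y_ne
  refine mem_filt_one (-q).toNat q.toNat (x ^ q.toNat) (y ^ (-q).toNat) ?_ ?_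
  · rw [map_pow, ← zpow_natCast, ← zpow_natCast, ← zpow_add₀ hx]
    congr 1; omega
  · rw [map_pow, ← zpow_natCast, ← zpow_natCast, zpow_neg, zpow_mul, h.relK, mul_zpow, mul_inv,
      mul_comm _ (algebraMap A K y ^ q)⁻¹, mul_assoc, inv_mul_cancel₀ (zpow_ne_zero q hx), mul_one,
      ← zpow_neg, ← zpow_add₀ hy]
    congr 1; omega

theorem mono (X : Submodule A V) (i : ℤ) : filt K x y z X i ≤ filt K x y z X (i + 1) :=
  fun ξ hξ => by simpa [add_comm] using filt_mul (alg_ne K h.z_ne) h.one_mem hξ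

theorem monotone (X : Submodule A V) : Monotone (filt K x y z X) :=
  monotone_int_of_le_succ (h.mono X)

theorem z_smul {X : Submodule A V} (i : ℤ) (ξ : V) (hξ : ξ ∈ filt K x y z X (i + 1)) :
    z • ξ ∈ filt K x y z X i := by
  simpa using filt_mul (alg_ne K h.z_ne) h.z_mem_filt hξ

theorem xq_smul {X : Submodule A V} (q : ℤ) {i : ℤ} {ξ : V} (hξ : ξ ∈ filt K x y z X i) :
    algebraMap A K x ^ q • ξ ∈ filt K x y z X (i - n * q) := by
  have := filt_mul (alg_ne K h.z_ne) (h.x_zpow q) hξ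
  rwa [neg_add_eq_sub] at this

theorem x_smul {X : Submodule A V} (i : ℤ) (ξ : V) (hξ : ξ ∈ filt K x y z X (i + n)) :
    x • ξ ∈ filt K x y z X i := by
  simpa using h.xq_smul 1 hξ

theorem L_zero : filt K x y z (1 : Submodule A K) 0 = 1 := by
  refine filt_zero fun f h1 h2 => ?_
  obtain ⟨a, ha⟩ := Submodule.mem_one.1 h1
  obtain ⟨b, hb⟩ := Submodule.mem_one.1 h2
  rw [Algebra.smul_def] at ha hb
  obtain ⟨c, rfl⟩ := h.div_x (a := a) (b := b) (FaithfulSMul.algebraMap_injective A K (by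
    rw [map_mul, map_mul, ha, hb]; ring))
  rw [map_mul] at ha
  exact Submodule.mem_one.2 ⟨c, mul_left_cancel₀ (alg_ne K h.x_ne) ha⟩

theorem reg_pow {i : ℕ} (hi : i ≤ n) (N : ℕ) (a : A) (ha : y ^ N * a ∈ Ideal.span {x, z ^ i}) :
    a ∈ Ideal.span {x, z ^ i} := by
  induction N with
  | zero => simpa using ha
  | succ N ih => exact ih (h.reg i hi _ (by rwa [← mul_assoc, ← pow_succ']))

theorem L_neg {i : ℕ} (hi : i ≤ n) {a : K} :
    a ∈ filt K x y z (1 : Submodule A K) (-(i : ℤ)) ↔
      ∃ c ∈ Ideal.span {x, z ^ i}, algebraMap A K c = a := by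
  have hz := alg_ne K h.z_ne
  constructor
  · intro ha
    have h0 := h.monotone 1 (show -(i : ℤ) ≤ 0 by omega) ha
    rw [h.L_zero] at h0
    obtain ⟨c, rfl⟩ := Submodule.mem_one.1 h0
    obtain ⟨N, hN⟩ := ha.2
    obtain ⟨d, hd⟩ := Submodule.mem_one.1 hN
    refine ⟨c, h.reg_pow hi N c ?_, rfl⟩
    have : y ^ N * c = d * z ^ i := FaithfulSMul.algebraMap_injective A K (by
      rw [map_mul, map_mul, hd, Algebra.smul_def, smul_eq_mul, map_pow _ z, zpow_neg, zpow_natCast]
      field_simp)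
    rw [this]
    exact Ideal.mul_mem_left _ _ (Ideal.subset_span (by simp))
  · rintro ⟨c, hc, rfl⟩
    obtain ⟨u, v, rfl⟩ := Ideal.mem_span_pair.1 hc
    rw [map_add, map_mul, map_mul, ← Algebra.smul_def, ← Algebra.smul_def]
    refine add_mem (Submodule.smul_mem _ _ ?_) (Submodule.smul_mem _ _ ?_)
    · have := h.x_zpow (K := K) 1
      rw [zpow_one, mul_one] at this
      exact h.monotone 1 (by omega) this
    · exact mem_filt_one 0 0 (z ^ i) 1 (by simp) (by simp [hz])

/-- An element of a step of the filtration of the ring is either decomposable or invertible. -/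
theorem dich0 {s : ℕ} (hs : s < n) {a : K} (ha : a ∈ filt K x y z (1 : Submodule A K) (-(s : ℤ))) :
    (∃ b ∈ filt K x y z (1 : Submodule A K) (-(s : ℤ) - 1),
      ∃ c ∈ filt K x y z (1 : Submodule A K) (-(s : ℤ) + 1), a = b + z • c) ∨
    (a ≠ 0 ∧ a⁻¹ ∈ filt K x y z (1 : Submodule A K) s) := by
  have hz := alg_ne K h.z_ne
  have hx1 : algebraMap A K x ∈ filt K x y z (1 : Submodule A K) (-(s : ℤ) - 1) := by
    have := h.x_zpow (K := K) 1
    rw [zpow_one, mul_one] at this
    exact h.monotone 1 (by omega) this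
  obtain ⟨c, hc, rfl⟩ := (h.L_neg hs.le).1 ha
  cases s with
  | zero =>
    by_cases hu : IsUnit c
    · obtain ⟨u, rfl⟩ := hu
      refine Or.inr ⟨alg_ne K u.ne_zero, ?_⟩
      rw [Nat.cast_zero, h.L_zero, ← map_units_inv]
      exact Submodule.mem_one.2 ⟨_, rfl⟩
    · have h1 : c ∈ Ideal.span {x, y, z} := h.max ▸ (mem_maximalIdeal c).2 hu
      obtain ⟨u, r, hr, rfl⟩ := Ideal.mem_span_insert.1 h1
      obtain ⟨v, w, rfl⟩ := Ideal.mem_span_pair.1 hr
      refine Or.inl ⟨u • algebraMap A K x + w • algebraMap A K z,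
        add_mem (Submodule.smul_mem _ _ hx1) (Submodule.smul_mem _ _ (by
          simpa using h.z_mem_filt)),
        v • (algebraMap A K y / algebraMap A K z), Submodule.smul_mem _ _ ?_, ?_⟩
      · obtain ⟨m, rfl⟩ : ∃ m, n = m + 1 := ⟨n - 1, by omega⟩
        refine mem_filt_one 1 0 (z ^ m) y ?_ (by simp; field_simp)
        have := congrArg (algebraMap A K) h.rel
        rw [map_mul, map_pow, pow_succ] at this
        rw [pow_one, map_pow, ← mul_div_assoc, this, mul_div_cancel_right₀ _ hz]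
      · simp only [map_add, map_mul, Algebra.smul_def]
        field_simp
        ring
  | succ s =>
    obtain ⟨u, v, rfl⟩ := Ideal.mem_span_pair.1 hc
    refine Or.inl ⟨u • algebraMap A K x, Submodule.smul_mem _ _ hx1,
      v • algebraMap A K (z ^ s), Submodule.smul_mem _ _ ?_, ?_⟩
    · have := (h.L_neg (K := K) (i := s) (by omega)).2
        ⟨z ^ s, Ideal.subset_span (by simp), rfl⟩
      convert this using 2
      push_cast; ring
    · simp only [map_add, map_mul, Algebra.smul_def, map_pow]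
      ring

theorem dich {t : ℤ} {a : K} (ha : a ∈ filt K x y z (1 : Submodule A K) t) :
    (∃ b ∈ filt K x y z (1 : Submodule A K) (t - 1),
      ∃ c ∈ filt K x y z (1 : Submodule A K) (t + 1), a = b + z • c) ∨
    (a ≠ 0 ∧ a⁻¹ ∈ filt K x y z (1 : Submodule A K) (-t)) := by
  have hx := alg_ne K h.x_ne
  have hn : (0 : ℤ) < n := by have := h.hn; omega
  obtain ⟨q, s, hs, rfl⟩ : ∃ (q : ℤ) (s : ℕ), s < n ∧ t = n * q - s := by
    refine ⟨-((-t) / n), ((-t) % n).toNat, ?_, ?_⟩
    · have := Int.emod_lt_of_pos (-t) hn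
      omega
    · have h1 := Int.emod_nonneg (-t) hn.ne'
      have h2 := Int.mul_ediv_add_emod (-t) n
      rw [Int.toNat_of_nonneg h1]
      linarith
  have h1 := h.xq_smul q ha
  rw [sub_sub_cancel_left] at h1
  rcases h.dich0 hs h1 with ⟨b, hb, c, hc, e⟩ | ⟨h2, h3⟩
  · refine Or.inl ⟨_, ?_, _, ?_, (?_ : a = algebraMap A K x ^ (-q) • b +
      z • algebraMap A K x ^ (-q) • c)⟩
    · convert h.xq_smul (-q) hb using 2; ring
    · convert h.xq_smul (-q) hc using 2; ring
    · rw [smul_comm z, ← smul_add, ← e, smul_smul, ← zpow_add₀ hx, neg_add_cancel, zpow_zero,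
        one_smul]
  · have ha0 : a ≠ 0 := fun e => h2 (by rw [e, smul_zero])
    refine Or.inr ⟨ha0, ?_⟩
    have h4 := h.xq_smul q h3
    rw [smul_eq_mul, smul_eq_mul, mul_inv, ← mul_assoc, mul_inv_cancel₀ (zpow_ne_zero q hx),
      one_mul] at h4
    convert h4 using 2; ring

end IsAn

/-- A family of vectors that generates every step of the filtration. -/
def Gen (K : Type) [Field K] [Algebra A K] [Module K V] [IsScalarTower A K V] (x y z : A) (n : ℕ)
    (X : Submodule A V) (r : ℕ) (j : Fin r → ℕ) (e : Fin r → V) : Prop :=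
  (∀ l, j l < n ∧ e l ∈ filt K x y z X (j l)) ∧ ∀ i : ℤ, ∀ ξ ∈ filt K x y z X i,
    ∃ a : Fin r → K, (∀ l, a l ∈ filt K x y z (1 : Submodule A K) (i - j l)) ∧ ∑ l, a l • e l = ξ

namespace IsAn

variable (h : IsAn A x y z n) [IsNoetherianRing A]
include h

theorem filt_fg {X : Submodule A V} (hX : X.FG) (hS : ∀ f : V, x • f ∈ X → y • f ∈ X → f ∈ X)
    {i : ℤ} (hi : i ≤ n) : (filt K x y z X i).FG := by
  have hx := alg_ne K h.x_ne
  have h1 : (filt K x y z X i).map (x • LinearMap.id : V →ₗ[A] V) ≤ X := by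
    rintro _ ⟨ξ, hξ, rfl⟩
    rw [← filt_zero (K := K) (z := z) hS]
    exact h.x_smul 0 ξ (h.monotone X (by omega) hξ)
  refine Submodule.fg_of_fg_map_injective (x • LinearMap.id : V →ₗ[A] V) (fun a b e => ?_)
    (hX.of_le h1)
  have e' : algebraMap A K x • a = algebraMap A K x • b := by simpa using e
  exact smul_right_injective V hx e'

theorem exists_gen {X : Submodule A V} (hX : X.FG)
    (hS : ∀ f : V, x • f ∈ X → y • f ∈ X → f ∈ X) : ∃ r j e, Gen K x y z n X r j e := by
  classical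
  have hx := alg_ne K h.x_ne
  have hn : (0 : ℤ) < n := by have := h.hn; omega
  have h1 : ∀ i : Fin n, ∃ (m : ℕ) (s : Fin m → V),
      Submodule.span A (Set.range s) = filt K x y z X i := fun i =>
    Submodule.fg_iff_exists_fin_generating_family.1 (h.filt_fg hX hS (by have := i.2; omega))
  choose m s hs using h1
  let ε := Fintype.equivFin (Σ i : Fin n, Fin (m i))
  refine ⟨_, fun l => (ε.symm l).1, fun l => s _ (ε.symm l).2, fun l => ⟨(ε.symm l).1.2, ?_⟩,
    fun i ξ hξ => ?_⟩
  · rw [← hs]; exact Submodule.subset_span ⟨_, rfl⟩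
  · obtain ⟨q, i0, rfl⟩ : ∃ (q : ℤ) (i0 : Fin n), i = n * q + i0 := by
      have h1 := Int.emod_nonneg i hn.ne'
      have h2 := Int.mul_ediv_add_emod i n
      have h3 := Int.emod_lt_of_pos i hn
      refine ⟨i / n, ⟨(i % n).toNat, by omega⟩, ?_⟩
      simp only [Int.toNat_of_nonneg h1]
      linarith
    have h2 := h.xq_smul q hξ
    rw [add_sub_cancel_left, ← hs] at h2
    obtain ⟨c, hc⟩ := (Submodule.mem_span_range_iff_exists_fun A).1 h2
    let a : (Σ i : Fin n, Fin (m i)) → K := fun p =>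
      if hp : p.1 = i0 then algebraMap A K x ^ (-q) * algebraMap A K (c (hp ▸ p.2)) else 0
    refine ⟨fun l => a (ε.symm l), fun l => ?_, ?_⟩
    · beta_reduce
      generalize ε.symm l = p
      by_cases hp : p.1 = i0
      · obtain ⟨i1, t⟩ := p
        subst hp
        have h3 : algebraMap A K (c t) ∈ filt K x y z (1 : Submodule A K) 0 := by
          rw [h.L_zero]; exact Submodule.mem_one.2 ⟨_, rfl⟩
        simp only [a, dif_pos]
        convert h.xq_smul (-q) h3 using 2
        · ring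
        · rfl
      · simp only [a, dif_neg hp]; exact Submodule.zero_mem _
    · rw [Equiv.sum_comp ε.symm (fun p => a p • s p.1 p.2), Fintype.sum_sigma,
        Finset.sum_eq_single i0]
      · simp only [a, dif_pos, mul_smul, algebraMap_smul]
        rw [← Finset.smul_sum, hc, smul_smul, ← zpow_add₀ hx, neg_add_cancel, zpow_zero, one_smul]
      · intro i1 _ hi1
        exact Finset.sum_eq_zero fun t _ => by simp only [a, dif_neg hi1, zero_smul]
      · intro h3; exact absurd (Finset.mem_univ _) h3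

/-- A generating family is either redundant or free. -/
theorem gen_step {X : Submodule A V} {r : ℕ} {j : Fin (r + 1) → ℕ} {e : Fin (r + 1) → V}
    (hG : Gen K x y z n X (r + 1) j e) :
    (∃ l : Fin (r + 1), Gen K x y z n X r (j ∘ l.succAbove) (e ∘ l.succAbove)) ∨
    ∀ a : Fin (r + 1) → K, (∀ l, a l ∈ filt K x y z (1 : Submodule A K) (0 - j l)) →
      ∑ l, a l • e l = 0 → a = 0 := by
  have hx := alg_ne K h.x_ne
  have hz := alg_ne K h.z_ne
  by_cases hred : ∃ (i : ℤ) (a : Fin (r + 1) → K) (l : Fin (r + 1)),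
      (∀ l, a l ∈ filt K x y z (1 : Submodule A K) (i - j l)) ∧ ∑ l, a l • e l = 0 ∧ a l ≠ 0 ∧
        (a l)⁻¹ ∈ filt K x y z (1 : Submodule A K) (-(i - j l))
  · obtain ⟨i, a, l, h1, h2, h3, h4⟩ := hred
    refine Or.inl ⟨l, fun l' => hG.1 _, fun i' ξ hξ => ?_⟩
    obtain ⟨b, hb, rfl⟩ := hG.2 i' ξ hξ
    refine ⟨fun l' => b (l.succAbove l') - b l * ((a l)⁻¹ * a (l.succAbove l')),
      fun l' => sub_mem (hb _) ?_, ?_⟩
    · have := filt_mul hz (hb l) (filt_mul hz h4 (h1 (l.succAbove l')))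
      convert this using 2
      · simp only [Function.comp]; ring
      · rfl
    · rw [Fin.sum_univ_succAbove _ l] at h2 ⊢
      have h5 : e l = -((a l)⁻¹ • ∑ l', a (l.succAbove l') • e (l.succAbove l')) := by
        rw [← neg_eq_of_add_eq_zero_right h2, smul_neg, neg_neg, smul_smul, inv_mul_cancel₀ h3,
          one_smul]
      rw [h5]
      simp only [Function.comp, sub_smul, Finset.sum_sub_distrib, mul_smul, ← Finset.smul_sum,
        smul_neg]
      abel
  · right
    let Θ : (Fin (r + 1) → K) →ₗ[A] V := (Fintype.linearCombination K e).restrictScalars A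
    have hΘ : ∀ a, Θ a = ∑ l, a l • e l := fun a => by simp [Θ, Fintype.linearCombination_apply]
    let P : ℤ → Submodule A (Fin (r + 1) → K) := fun i =>
      Submodule.pi Set.univ fun l => filt K x y z (1 : Submodule A K) (i - j l)
    have hP : ∀ i a, a ∈ P i ↔ ∀ l, a l ∈ filt K x y z (1 : Submodule A K) (i - j l) :=
      fun i a => by simp [P, Submodule.mem_pi]
    have hPΘ : ∀ i, ∀ a ∈ P i, Θ a ∈ filt K x y z X i := fun i a ha => by
      rw [hΘ]
      refine Submodule.sum_mem _ fun l _ => ?_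
      simpa using filt_mul hz ((hP i a).1 ha l) (hG.1 l).2
    let F : ℤ → Submodule A (Fin (r + 1) → K) := fun i => P i ⊓ LinearMap.ker Θ
    have hPz : ∀ i, ∀ a ∈ P (i + 1), z • a ∈ P i := fun i a ha => (hP _ _).2 fun l =>
      h.z_smul _ _ (by convert (hP _ _).1 ha l using 2; ring)
    have key : F 0 ≤ ⊥ := by
      refine h.nak F (fun _ => ⊥) (fun i a ha => ⟨(hP _ _).2 fun l =>
        h.monotone 1 (by omega) ((hP _ _).1 ha.1 l), ha.2⟩) (fun _ => le_rfl)
        (fun i a ha => ⟨hPz i a ha.1, Submodule.smul_mem _ _ ha.2⟩)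
        (fun i a ha => Submodule.smul_mem _ _ ha)
        (fun i a ha => ⟨(hP _ _).2 fun l => h.x_smul _ _ (by
          convert (hP _ _).1 ha.1 l using 2; ring), Submodule.smul_mem _ _ ha.2⟩)
        (fun i a ha => ⟨algebraMap A K x ^ (-1 : ℤ) • a, ⟨(hP _ _).2 fun l => ?_, ?_⟩, ?_⟩)
        (fun i s hs => ?_) 0 ?_
      · convert h.xq_smul (-1) ((hP _ _).1 ha.1 l) using 2
        · ring
        · rfl
      · have h1 : Θ a = 0 := ha.2
        change Fintype.linearCombination K e _ = 0
        rw [map_smul]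
        change _ • Θ a = 0
        rw [h1, smul_zero]
      · rw [← algebraMap_smul K x, smul_smul, zpow_neg_one, mul_inv_cancel₀ hx, one_smul]
      · have h1 : ∀ l, ∃ b ∈ filt K x y z (1 : Submodule A K) (i - j l - 1),
            ∃ c ∈ filt K x y z (1 : Submodule A K) (i - j l + 1), s l = b + z • c := fun l =>
          (h.dich ((hP _ _).1 hs.1 l)).resolve_right fun h2 =>
            hred ⟨i, s, l, (hP _ _).1 hs.1, by rw [← hΘ]; exact hs.2, h2.1, h2.2⟩
        choose b hb c hc hbc using h1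
        have hbP : b ∈ P (i - 1) := (hP _ _).2 fun l => by convert hb l using 2; ring
        have hcP : c ∈ P (i + 1) := (hP _ _).2 fun l => by convert hc l using 2; ring
        have hs' : s = b + z • c := funext hbc
        have h2 : Θ b + z • Θ c = 0 := by rw [← map_smul, ← map_add, ← hs']; exact hs.2
        have h3 : Θ c ∈ filt K x y z X i := filt_koszul hz (hPΘ _ c hcP) (by
          rw [← neg_eq_of_add_eq_zero_right h2]; exact neg_mem (hPΘ _ b hbP))
        obtain ⟨d, hd, hd'⟩ := hG.2 i _ h3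
        rw [← hΘ] at hd'
        have hdP : d ∈ P i := (hP _ _).2 hd
        refine ⟨0, Submodule.zero_mem _, b + z • d, ⟨add_mem hbP (hPz _ d (by
          rwa [sub_add_cancel])), ?_⟩, c - d, ⟨sub_mem hcP ((hP _ _).2 fun l =>
            h.monotone 1 (by omega) (hd l)), ?_⟩, ?_⟩
        · change Θ _ = 0
          rw [map_add, map_smul, hd', h2]
        · change Θ _ = 0
          rw [map_sub, hd', sub_self]
        · rw [hs', smul_sub]; abel
      · have h1 : (Submodule.pi Set.univ fun _ : Fin (r + 1) => (1 : Submodule A K)).FG :=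
          Submodule.fg_pi fun _ => by
            rw [Submodule.one_eq_span]; exact Submodule.fg_span_singleton _
        refine h1.of_le fun a ha l _ => ?_
        rw [← h.L_zero]
        exact h.monotone 1 (by omega) ((hP _ _).1 ha.1 l)
    intro a ha h0
    exact key ⟨(hP _ _).2 ha, by change Θ a = 0; rw [hΘ, h0]⟩

/-- Lattices of depth two are direct sums of the ideals `(x, z ^ i)`. -/
theorem classify {X : Submodule A V} (hX : X.FG)
    (hS : ∀ f : V, x • f ∈ X → y • f ∈ X → f ∈ X) (K : Type) [Field K] [Algebra A K]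
    [FaithfulSMul A K] [Module K V] [IsScalarTower A K V] :
    ∃ (r : ℕ) (j : Fin r → ℕ), (∀ l, j l < n) ∧
      Nonempty (((l : Fin r) → (Ideal.span {x, z ^ j l} : Ideal A)) ≃ₗ[A] X) := by
  have hz := alg_ne K h.z_ne
  obtain ⟨r, j, e, hG⟩ := h.exists_gen (K := K) hX hS
  obtain ⟨r, j, e, hG, hI⟩ : ∃ r j e, Gen K x y z n X r j e ∧ ∀ a : Fin r → K,
      (∀ l, a l ∈ filt K x y z (1 : Submodule A K) (0 - j l)) → ∑ l, a l • e l = 0 → a = 0 := by
    induction r with
    | zero => exact ⟨0, j, e, hG, fun a _ _ => Subsingleton.elim _ _⟩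
    | succ r ih =>
      rcases h.gen_step hG with ⟨l, hl⟩ | hI
      · exact ih _ _ hl
      · exact ⟨_, j, e, hG, hI⟩
  let Θ : ((l : Fin r) → (Ideal.span {x, z ^ j l} : Ideal A)) →ₗ[A] V :=
    ∑ l, ((Ideal.span {x, z ^ j l} : Ideal A).subtype ∘ₗ LinearMap.proj l).smulRight (e l)
  have hΘ : ∀ a, Θ a = ∑ l, algebraMap A K (a l) • e l := fun a => by
    simp [Θ, LinearMap.sum_apply]
  have hL : ∀ l (c : (Ideal.span {x, z ^ j l} : Ideal A)),
      algebraMap A K c ∈ filt K x y z (1 : Submodule A K) (0 - j l) := fun l c => by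
    rw [zero_sub]; exact (h.L_neg (hG.1 l).1.le).2 ⟨c, c.2, rfl⟩
  have h1 : Function.Injective Θ := by
    refine (injective_iff_map_eq_zero Θ).2 fun a ha => funext fun l => Subtype.ext ?_
    have := congrFun (hI (fun l => algebraMap A K (a l)) (fun l => hL l _) (by rw [← hΘ, ha])) l
    exact FaithfulSMul.algebraMap_injective A K (by simpa using this)
  have h2 : LinearMap.range Θ = X := by
    rw [← filt_zero (K := K) (z := z) hS]
    refine le_antisymm ?_ fun ξ hξ => ?_
    · rintro _ ⟨a, rfl⟩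
      rw [hΘ]
      refine Submodule.sum_mem _ fun l _ => ?_
      simpa using filt_mul hz (hL l (a l)) (hG.1 l).2
    · obtain ⟨a, ha, rfl⟩ := hG.2 0 ξ hξ
      have h3 : ∀ l, ∃ c ∈ Ideal.span {x, z ^ j l}, algebraMap A K c = a l := fun l =>
        (h.L_neg (hG.1 l).1.le).1 (by simpa using ha l)
      choose c hc hc' using h3
      exact ⟨fun l => ⟨c l, hc l⟩, by rw [hΘ]; simp [hc']⟩
  exact ⟨r, j, fun l => (hG.1 l).1,
    ⟨(LinearEquiv.ofInjective Θ h1).trans (LinearEquiv.ofEq _ _ h2)⟩⟩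

end IsAn

end Pool.Agent.Lib.MP_86e60f_al.An
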