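import Mathlib

set_option autoImplicit false

open IsLocalRing
open scoped TensorProduct

namespace Pool.Agent.Lib.MP_86e60f_al.An

variable {A : Type} [CommRing A]

section PF

variable {X Y Z : Type} [AddCommGroup X] [Module A X] [AddCommGroup Y] [Module A Y]
  [AddCommGroup Z] [Module A Z]

/-- The maps that factor through a finite free module. -/
def PF (A : Type) [CommRing A] (X Y : Type) [AddCommGroup X] [Module A X] [AddCommGroup Y]
    [Module A Y] : Submodule A (X →ₗ[A] Y) := LinearMap.range (dualTensorHom A X Y)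

theorem smulRight_mem (φ : X →ₗ[A] A) (η : Y) : φ.smulRight η ∈ PF A X Y :=
  ⟨φ ⊗ₜ η, by ext; simp⟩

theorem PF_induction {C : (X →ₗ[A] Y) → Prop} (h0 : C 0)
    (h1 : ∀ (φ : X →ₗ[A] A) (η : Y), C (φ.smulRight η)) (h2 : ∀ f g, C f → C g → C (f + g))
    {γ : X →ₗ[A] Y} (hγ : γ ∈ PF A X Y) : C γ := by
  obtain ⟨t, rfl⟩ := hγ
  induction t using TensorProduct.induction_on with
  | zero => rwa [map_zero]
  | tmul φ η =>
    have : dualTensorHom A X Y (φ ⊗ₜ η) = LinearMap.smulRight φ η := by ext; simp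
    rw [this]; exact h1 φ η
  | add s t hs ht => rw [map_add]; exact h2 _ _ hs ht

theorem PF_comp {γ : X →ₗ[A] Y} (hγ : γ ∈ PF A X Y) (f : Z →ₗ[A] X) : γ ∘ₗ f ∈ PF A Z Y := by
  refine PF_induction (C := fun γ => γ ∘ₗ f ∈ PF A Z Y) (by simp) (fun φ η => ?_)
    (fun a b ha hb => by rw [LinearMap.add_comp]; exact add_mem ha hb) hγ
  have : φ.smulRight η ∘ₗ f = (φ ∘ₗ f).smulRight η := by ext; simp
  rw [this]; exact smulRight_mem _ _

theorem comp_PF {γ : X →ₗ[A] Y} (hγ : γ ∈ PF A X Y) (f : Y →ₗ[A] Z) : f ∘ₗ γ ∈ PF A X Z := by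
  refine PF_induction (C := fun γ => f ∘ₗ γ ∈ PF A X Z) (by simp) (fun φ η => ?_)
    (fun a b ha hb => by rw [LinearMap.comp_add]; exact add_mem ha hb) hγ
  have : f ∘ₗ φ.smulRight η = φ.smulRight (f η) := by ext; simp
  rw [this]; exact smulRight_mem _ _

theorem projective_of_PF (h : (LinearMap.id : X →ₗ[A] X) ∈ PF A X X) : Module.Projective A X := by
  obtain ⟨t, ht⟩ := h
  obtain ⟨k, φ, η, rfl⟩ := TensorProduct.exists_sum_tmul_eq t
  refine Module.Projective.of_split (LinearMap.pi φ) (Fintype.linearCombination A η) ?_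
  rw [← ht]
  ext v
  simp [Fintype.linearCombination_apply, LinearMap.sum_apply]

theorem exists_div {w : A} (hw : IsRegular w) (ψ : X →ₗ[A] A) (h : ∀ v, w ∣ ψ v) :
    ∃ φ : X →ₗ[A] A, ∀ v, w * φ v = ψ v := by
  choose c hc using h
  exact ⟨{ toFun := c
           map_add' := fun a b => hw.left (by simp only [mul_add, ← hc, map_add])
           map_smul' := fun r a => hw.left (by
             simp only [← hc, map_smul, smul_eq_mul, RingHom.id_apply, mul_left_comm w r]) },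
    fun v => (hc v).symm⟩

end PF

theorem lift_aux {M E : Type} [AddCommGroup M] [Module A M] [AddCommGroup E] [Module A E] {m : ℕ}
    (π : (Fin m → A) →ₗ[A] M) (hπ : Function.Surjective π) (X : Submodule A (Fin m → A))
    (hX : ∀ f, f ∈ X ↔ π f = 0) (ρ : (X →ₗ[A] A) →ₗ[A] E) (hρs : Function.Surjective ρ)
    (hρk : ∀ φ, ρ φ = 0 → ∃ ψ : (Fin m → A) →ₗ[A] A, φ = ψ ∘ₗ X.subtype) {c : A}
    (hc : IsSMulRegular (M ⊗[A] E) c) (hcP : c • (LinearMap.id : X →ₗ[A] X) ∈ PF A X X)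
    (β : X →ₗ[A] X) : ∃ γ ∈ PF A X X, ∃ α : (Fin m → A) →ₗ[A] (Fin m → A),
      X.subtype ∘ₗ (β - γ) = α ∘ₗ X.subtype := by
  classical
  -- the class of an endomorphism
  let τ : (X →ₗ[A] X) →ₗ[A] (Fin m → A) ⊗[A] E := ∑ p : Fin m,
    TensorProduct.mk A (Fin m → A) E (Pi.single p 1) ∘ₗ ρ ∘ₗ
      LinearMap.llcomp A X X A (LinearMap.proj p ∘ₗ X.subtype)
  have hτ : ∀ β, τ β = ∑ p : Fin m, (Pi.single p 1 : Fin m → A) ⊗ₜ
      ρ ((LinearMap.proj p ∘ₗ X.subtype) ∘ₗ β) := fun β => by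
    simp only [τ, LinearMap.sum_apply]; rfl
  have hτ1 : ∀ (φ : X →ₗ[A] A) (η : X), τ (φ.smulRight η) = (η : Fin m → A) ⊗ₜ ρ φ := by
    intro φ η
    rw [hτ]
    conv_rhs => rw [← Finset.univ_sum_single (η : Fin m → A), TensorProduct.sum_tmul]
    refine Finset.sum_congr rfl fun p _ => ?_
    have : (LinearMap.proj p ∘ₗ X.subtype) ∘ₗ φ.smulRight η = (η : Fin m → A) p • φ := by
      ext v; simp [mul_comm]
    rw [this, map_smul, TensorProduct.tmul_smul, TensorProduct.smul_tmul', ← Pi.single_smul,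
      smul_eq_mul, mul_one]
  have hτ2 : ∀ γ ∈ PF A X X, π.rTensor E (τ γ) = 0 := fun γ hγ =>
    PF_induction (C := fun γ => π.rTensor E (τ γ) = 0) (by simp) (fun φ η => by
      rw [hτ1, LinearMap.rTensor_tmul, (hX _).1 η.2, TensorProduct.zero_tmul])
      (fun a b ha hb => by rw [map_add, map_add, ha, hb, add_zero]) hγ
  have h3 : π.rTensor E (τ β) = 0 := hc.right_eq_zero_of_smul (by
    rw [← map_smul, ← map_smul]
    exact hτ2 _ (PF_comp hcP β))
  obtain ⟨t, ht⟩ := (rTensor_exact E (f := X.subtype) (fun f => by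
    rw [← hX]; exact ⟨fun hf => ⟨⟨f, hf⟩, rfl⟩, fun ⟨ξ, hξ⟩ => hξ ▸ ξ.2⟩) hπ _).1 h3
  obtain ⟨s, rfl⟩ := LinearMap.lTensor_surjective X hρs t
  have h4 : ∃ γ ∈ PF A X X, τ γ = X.subtype.rTensor E (ρ.lTensor X s) := by
    clear ht
    induction s using TensorProduct.induction_on with
    | zero => exact ⟨0, zero_mem _, by simp⟩
    | tmul η φ => exact ⟨_, smulRight_mem φ η, by rw [hτ1]; simp⟩
    | add s t hs ht =>
      obtain ⟨a, ha, ha'⟩ := hs
      obtain ⟨b, hb, hb'⟩ := ht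
      exact ⟨a + b, add_mem ha hb, by rw [map_add, map_add, map_add, ha', hb']⟩
  obtain ⟨γ, hγ, hγ'⟩ := h4
  have h5 : τ (β - γ) = 0 := (τ.map_sub β γ).trans (by rw [hγ', ht, sub_self])
  have h6 : ∀ p : Fin m, ρ ((LinearMap.proj p ∘ₗ X.subtype) ∘ₗ (β - γ)) = 0 := fun p => by
    have := congrArg ((TensorProduct.lid A E).toLinearMap ∘ₗ
      (LinearMap.proj p : (Fin m → A) →ₗ[A] A).rTensor E) h5
    rw [hτ, map_sum, map_zero, Finset.sum_eq_single p] at this
    · simpa using this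
    · intro q _ hq
      simp [Pi.single_eq_of_ne' hq]
    · intro h; exact absurd (Finset.mem_univ _) h
  choose ψ hψ using fun p => hρk _ (h6 p)
  exact ⟨γ, hγ, LinearMap.pi ψ, LinearMap.ext fun ξ => funext fun p =>
    LinearMap.congr_fun (hψ p) ξ⟩

/-- If `M ⊗ Hom(M, A/G)` has a regular element that kills the stable endomorphisms of the
syzygy `X` of `M`, then every endomorphism of `X` comes stably from an endomorphism of the
presentation. -/
theorem lift_end {M : Type} [AddCommGroup M] [Module A M] {m : ℕ} (π : (Fin m → A) →ₗ[A] M)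
    (hπ : Function.Surjective π) (X : Submodule A (Fin m → A)) (hX : ∀ f, f ∈ X ↔ π f = 0)
    {G : A} (hG : IsRegular G) (hGM : ∀ v : M, G • v = 0) {c : A}
    (hc : IsSMulRegular (M ⊗[A] (M →ₗ[A] A ⧸ Ideal.span {G})) c)
    (hcP : c • (LinearMap.id : X →ₗ[A] X) ∈ PF A X X)
    (β : X →ₗ[A] X) : ∃ γ ∈ PF A X X, ∃ α : (Fin m → A) →ₗ[A] (Fin m → A),
      X.subtype ∘ₗ (β - γ) = α ∘ₗ X.subtype := by
  let μ : (Fin m → A) →ₗ[A] X := (G • LinearMap.id : (Fin m → A) →ₗ[A] (Fin m → A)).codRestrict X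
    fun f => by simp [hX, hGM]
  have hμ : ∀ f, (μ f : Fin m → A) = G • f := fun f => rfl
  have hμX : ∀ ξ : X, μ ξ = G • ξ := fun ξ => Subtype.ext rfl
  have h1 : ∀ φ : X →ₗ[A] A, ∃ ψ : M →ₗ[A] A ⧸ Ideal.span {G},
      ∀ f, ψ (π f) = Ideal.Quotient.mk _ (φ (μ f)) := fun φ => by
    let ψ0 : (Fin m → A) →ₗ[A] A ⧸ Ideal.span {G} := (Ideal.span {G}).mkQ ∘ₗ φ ∘ₗ μ
    have hk : LinearMap.ker π ≤ LinearMap.ker ψ0 := fun f hf => by
      change Ideal.Quotient.mk _ (φ (μ (⟨f, (hX f).2 hf⟩ : X))) = 0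
      rw [hμX, map_smul, Ideal.Quotient.eq_zero_iff_mem]
      exact Ideal.mul_mem_right _ _ (Ideal.mem_span_singleton_self G)
    exact ⟨(LinearMap.ker π).liftQ ψ0 hk ∘ₗ (π.quotKerEquivOfSurjective hπ).symm.toLinearMap,
      fun f => by
        rw [LinearMap.comp_apply, LinearEquiv.coe_coe, LinearMap.quotKerEquivOfSurjective_symm_apply]
        rfl⟩
  choose ρ0 hρ0 using h1
  have hext : ∀ ψ ψ' : M →ₗ[A] A ⧸ Ideal.span {G},
      (∀ f, ψ (π f) = ψ' (π f)) → ψ = ψ' := fun ψ ψ' h =>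
    LinearMap.ext fun v => by obtain ⟨f, rfl⟩ := hπ v; exact h f
  let ρ : (X →ₗ[A] A) →ₗ[A] M →ₗ[A] A ⧸ Ideal.span {G} :=
    { toFun := ρ0
      map_add' := fun a b => hext _ _ fun f => by
        rw [LinearMap.add_apply, hρ0, hρ0, hρ0, LinearMap.add_apply, map_add]
      map_smul' := fun r a => hext _ _ fun f => by
        rw [RingHom.id_apply, LinearMap.smul_apply, hρ0, hρ0, LinearMap.smul_apply, smul_eq_mul,
          map_mul]
        rfl }
  have hρ : ∀ φ f, ρ φ (π f) = Ideal.Quotient.mk _ (φ (μ f)) := hρ0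
  have hρs : Function.Surjective ρ := fun ψ => by
    obtain ⟨ψ1, hψ1⟩ := Module.projective_lifting_property (Ideal.span {G}).mkQ (ψ ∘ₗ π)
      (Submodule.mkQ_surjective _)
    have h2 : ∀ f, Ideal.Quotient.mk _ (ψ1 f) = ψ (π f) := fun f => LinearMap.congr_fun hψ1 f
    obtain ⟨φ, hφ⟩ := exists_div hG (ψ1 ∘ₗ X.subtype) fun ξ => by
      rw [← Ideal.mem_span_singleton, ← Ideal.Quotient.eq_zero_iff_mem]
      change Ideal.Quotient.mk _ (ψ1 ξ) = 0
      rw [h2, (hX _).1 ξ.2, map_zero]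
    refine ⟨φ, hext _ _ fun f => ?_⟩
    rw [hρ, ← h2]
    congr 1
    refine hG.left ?_
    simp only [hφ]
    change ψ1 (G • f) = _
    rw [map_smul, smul_eq_mul]
  have hρk : ∀ φ, ρ φ = 0 → ∃ ψ : (Fin m → A) →ₗ[A] A, φ = ψ ∘ₗ X.subtype := fun φ h0 => by
    obtain ⟨ψ, hψ⟩ := exists_div hG (φ ∘ₗ μ) fun f => by
      rw [← Ideal.mem_span_singleton, ← Ideal.Quotient.eq_zero_iff_mem]
      change Ideal.Quotient.mk _ (φ (μ f)) = 0
      rw [← hρ, h0, LinearMap.zero_apply]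
    refine ⟨ψ, LinearMap.ext fun ξ => hG.left ?_⟩
    change G * φ ξ = G * ψ ξ
    rw [hψ, LinearMap.comp_apply, hμX, map_smul, smul_eq_mul]
  exact lift_aux π hπ X hX ρ hρs hρk hc hcP β

end Pool.Agent.Lib.MP_86e60f_al.An
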