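import Mathlib
import Pool.Agent.Lib.MP_86e60f_al.An.Class
import Pool.Agent.Lib.MP_86e60f_al.An.Lift

set_option autoImplicit false

open IsLocalRing

namespace Pool.Agent.Lib.MP_86e60f_al.An

variable {A : Type} [CommRing A] [IsDomain A]

/-- The determinant step: an ideal that becomes stably free after inverting `G`. -/
theorem det_step (I : Ideal A) {a0 : A} (ha0 : a0 ∈ I) (h0 : a0 ≠ 0) {Y F : Type} [AddCommGroup Y]
    [Module A Y] [Module.Free A Y] [Module.Finite A Y] [AddCommGroup F] [Module A F]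
    [Module.Free A F] [Module.Finite A F] (φ : (I × Y) →ₗ[A] F) (ψ : F →ₗ[A] (I × Y)) {G : A}
    (hG : G ≠ 0) (h1 : ∀ v, ψ (φ v) = G • v) (h2 : ∀ f, φ (ψ f) = G • f) :
    ∃ k : ℕ, ∃ d ∈ I, ∀ a ∈ I, d ∣ G ^ k * a := by
  classical
  let J : (I × Y) →ₗ[A] (A × Y) := I.subtype.prodMap LinearMap.id
  let S : I → (A × Y) →ₗ[A] (I × Y) := fun a =>
    (LinearMap.toSpanSingleton A I a).prodMap LinearMap.id
  have hJ : Function.Injective J := fun a b e =>
    Prod.ext (Subtype.ext (congrArg Prod.fst e)) (congrArg Prod.snd e :)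
  have hψ : Function.Injective ψ := fun a b e =>
    smul_right_injective F hG (by simp only [← h2, e])
  have hφ : Function.Injective φ := fun a b e => hJ (smul_right_injective (A × Y) hG (by
    simp only [← map_smul, ← h1, e]))
  have hS : Function.Injective (S ⟨a0, ha0⟩) := fun a b e =>
    Prod.ext (mul_right_cancel₀ h0 (congrArg (fun v : I × Y => (v.1 : A)) e))
      (congrArg Prod.snd e :)
  have hr : Module.finrank A F = Module.finrank A (A × Y) :=
    le_antisymm (LinearMap.finrank_le_finrank_of_injective (f := J ∘ₗ ψ) (hJ.comp hψ))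
      (LinearMap.finrank_le_finrank_of_injective (f := φ ∘ₗ S ⟨a0, ha0⟩) (hφ.comp hS))
  let κ := LinearEquiv.ofFinrankEq F (A × Y) hr
  let U : (A × Y) →ₗ[A] (A × Y) := J ∘ₗ ψ ∘ₗ κ.symm.toLinearMap
  refine ⟨Module.finrank A (A × Y), LinearMap.det U, ?_, fun a ha => ?_⟩
  · let b := (Module.Basis.singleton Unit A).prod (Module.Free.chooseBasis A Y)
    rw [← LinearMap.det_toMatrix b, ← Ideal.Quotient.eq_zero_iff_mem, RingHom.map_det]
    refine Matrix.det_eq_zero_of_row_eq_zero (Sum.inl ()) fun j => ?_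
    rw [RingHom.mapMatrix_apply, Matrix.map_apply, LinearMap.toMatrix_apply,
      Ideal.Quotient.eq_zero_iff_mem]
    simp only [b, Module.Basis.prod_repr_inl, Module.Basis.singleton_repr]
    exact (ψ _).1.2
  · refine ⟨LinearMap.det (κ.toLinearMap ∘ₗ φ ∘ₗ S ⟨a, ha⟩), ?_⟩
    have h3 : U ∘ₗ (κ.toLinearMap ∘ₗ φ ∘ₗ S ⟨a, ha⟩) =
        G • (a • (LinearMap.id : A →ₗ[A] A)).prodMap LinearMap.id := by
      refine LinearMap.ext fun v => ?_
      simp only [U, LinearMap.comp_apply, LinearEquiv.coe_coe, LinearEquiv.symm_apply_apply, h1,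
        map_smul]
      refine Prod.ext ?_ rfl
      simp [J, S, mul_comm]
    rw [← LinearMap.det_comp, h3, LinearMap.det_smul, LinearMap.det_prodMap, LinearMap.det_smul]
    simp

/-- Prime elements that are regular modulo `I` can be cancelled. -/
theorem principal_of_primes (I : Ideal A) (s : Multiset A) (hs : ∀ g ∈ s, Prime g)
    (hr : ∀ g ∈ s, ∀ b, g * b ∈ I → b ∈ I) : ∀ d ∈ I, (∀ a ∈ I, d ∣ s.prod * a) →
      ∃ d ∈ I, ∀ a ∈ I, d ∣ a := by
  induction s using Multiset.induction_on with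
  | empty => exact fun d hd h => ⟨d, hd, by simpa using h⟩
  | cons g s ih =>
    intro d hd h
    have hg := hs g (Multiset.mem_cons_self g s)
    have ih' := ih (fun g' h' => hs g' (Multiset.mem_cons_of_mem h'))
      (fun g' h' => hr g' (Multiset.mem_cons_of_mem h'))
    by_cases hgd : g ∣ d
    · obtain ⟨d', rfl⟩ := hgd
      refine ih' d' (hr g (Multiset.mem_cons_self g s) _ hd) fun a ha => ?_
      have := h a ha
      rwa [Multiset.prod_cons, mul_assoc, mul_dvd_mul_iff_left hg.ne_zero] at this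
    · refine ih' d hd fun a ha => ?_
      obtain ⟨c, hc⟩ := h a ha
      rw [Multiset.prod_cons, mul_assoc] at hc
      obtain ⟨c', rfl⟩ := (hg.dvd_or_dvd (hc ▸ dvd_mul_right g _)).resolve_left hgd
      exact ⟨c', mul_left_cancel₀ hg.ne_zero (by rw [hc]; ring)⟩

variable [IsLocalRing A] {x y z : A} {n : ℕ}

namespace IsAn

variable (h : IsAn A x y z n)
include h

theorem dvd_of_dvd_x {g : A} (hg : g ∈ maximalIdeal A) (hx : g ∣ x) : x ∣ g := by
  obtain ⟨c, hc⟩ := hx
  by_cases hu : IsUnit c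
  · obtain ⟨u, rfl⟩ := hu
    exact ⟨↑u⁻¹, by rw [hc, mul_assoc, Units.mul_inv, mul_one]⟩
  · exact absurd (by rw [hc, pow_two]; exact Ideal.mul_mem_mul hg ((mem_maximalIdeal c).2 hu)) h.x2

theorem not_principal {i : ℕ} (h1 : 1 ≤ i) (h2 : i < n) :
    ¬ ∃ d ∈ Ideal.span {x, z ^ i}, ∀ a ∈ Ideal.span {x, z ^ i}, d ∣ a := by
  rintro ⟨d, hd, hd'⟩
  have hm : d ∈ maximalIdeal A := by
    obtain ⟨u, v, rfl⟩ := Ideal.mem_span_pair.1 hd
    exact add_mem (Ideal.mul_mem_left _ _ h.x_mem)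
      (Ideal.mul_mem_left _ _ (Ideal.pow_mem_of_mem _ h.z_mem i h1))
  exact h.zx i h2 (Ideal.mem_span_singleton.2 ((h.dvd_of_dvd_x hm
    (hd' x (Ideal.subset_span (by simp)))).trans (hd' _ (Ideal.subset_span (by simp)))))

theorem not_dvd_both {g : A} (hg : g ∈ maximalIdeal A) (hx : g ∣ x) (hz : g ∣ z) : False :=
  h.zx 1 (by have := h.hn; omega)
    (by rw [pow_one]; exact Ideal.mem_span_singleton.2 ((h.dvd_of_dvd_x hg hx).trans hz))

theorem prime_reg {g : A} (hg : Prime g) {i : ℕ} (hi : i ≤ n) (b : A)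
    (hb : g * b ∈ Ideal.span {x, z ^ i}) : b ∈ Ideal.span {x, z ^ i} := by
  by_cases hz : g ∣ z
  · have h1 : g ∣ x * y := h.rel ▸ dvd_pow hz (by have := h.hn; omega)
    obtain ⟨c, hc⟩ := (hg.dvd_or_dvd h1).resolve_left fun hx =>
      h.not_dvd_both ((mem_maximalIdeal g).2 hg.not_isUnit) hx hz
    refine h.reg i hi b ?_
    rw [hc, mul_comm g, mul_assoc]
    exact Ideal.mul_mem_left _ _ hb
  · obtain ⟨u, v, huv⟩ := Ideal.mem_span_pair.1 hb
    obtain ⟨t, rfl⟩ := Nat.exists_eq_add_of_le hi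
    have h1 : g * (y * b) = z ^ i * (u * z ^ t + v * y) := by
      have := h.rel
      rw [pow_add] at this
      linear_combination (-y) * huv + u * this
    obtain ⟨c, hc⟩ := (hg.dvd_or_dvd (h1 ▸ dvd_mul_right g _)).resolve_left fun h2 =>
      hz (hg.dvd_of_dvd_pow h2)
    refine h.reg i hi b ?_
    have h2 : y * b = c * z ^ i := mul_left_cancel₀ hg.ne_zero (by rw [h1, hc]; ring)
    rw [h2]
    exact Ideal.mul_mem_left _ _ (Ideal.subset_span (by simp))

theorem x_PF (i : ℕ) : x • (LinearMap.id : (Ideal.span {x, z ^ i} : Ideal A) →ₗ[A] _) ∈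
    PF A (Ideal.span {x, z ^ i} : Ideal A) (Ideal.span {x, z ^ i} : Ideal A) := by
  convert smulRight_mem (Ideal.span {x, z ^ i} : Ideal A).subtype
    (⟨x, Ideal.subset_span (by simp)⟩ : (Ideal.span {x, z ^ i} : Ideal A)) using 1
  ext v
  simp [mul_comm]

theorem y_PF {i : ℕ} (hi : i ≤ n) :
    y • (LinearMap.id : (Ideal.span {x, z ^ i} : Ideal A) →ₗ[A] _) ∈
    PF A (Ideal.span {x, z ^ i} : Ideal A) (Ideal.span {x, z ^ i} : Ideal A) := by
  obtain ⟨φ, hφ⟩ := exists_div (IsRegular.of_ne_zero (pow_ne_zero i h.z_ne))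
    (y • (Ideal.span {x, z ^ i} : Ideal A).subtype) fun v => by
      obtain ⟨u, w, huw⟩ := Ideal.mem_span_pair.1 v.2
      obtain ⟨t, rfl⟩ := Nat.exists_eq_add_of_le hi
      refine ⟨u * z ^ t + w * y, ?_⟩
      have := h.rel
      rw [pow_add] at this
      change y * (v : A) = _
      linear_combination (-y) * huw + u * this
  convert smulRight_mem φ
    (⟨z ^ i, Ideal.subset_span (by simp)⟩ : (Ideal.span {x, z ^ i} : Ideal A)) using 1
  ext v
  have := hφ v
  simp only [LinearMap.smul_apply, Submodule.subtype_apply, smul_eq_mul] at this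
  simp [← this, mul_comm]

theorem PF_le {i : ℕ} (h1 : 1 ≤ i) (h2 : i < n)
    {γ : (Ideal.span {x, z ^ i} : Ideal A) →ₗ[A] (Ideal.span {x, z ^ i} : Ideal A)}
    (hγ : γ ∈ PF A _ _) (v : (Ideal.span {x, z ^ i} : Ideal A)) :
    γ v ∈ maximalIdeal A • (⊤ : Submodule A (Ideal.span {x, z ^ i} : Ideal A)) := by
  refine PF_induction (C := fun γ => γ v ∈ maximalIdeal A • (⊤ : Submodule A _)) (zero_mem _)
    (fun φ η => Submodule.smul_mem_smul ((mem_maximalIdeal _).2 fun hu => ?_) Submodule.mem_top)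
    (fun a b ha hb => add_mem ha hb) hγ
  refine h.not_principal h1 h2 ⟨v, v.2, fun a ha => ?_⟩
  have h3 : (v : A) • (⟨a, ha⟩ : (Ideal.span {x, z ^ i} : Ideal A)) = a • v :=
    Subtype.ext (mul_comm _ _)
  have h4 := congrArg φ h3
  rw [map_smul, map_smul, smul_eq_mul, smul_eq_mul] at h4
  exact hu.dvd_mul_right.1 (h4 ▸ dvd_mul_right _ _)

theorem max_pow : ∃ k, maximalIdeal A ^ (k + 1) ≤ Ideal.span {x, y} := by
  obtain ⟨k, hk⟩ := Ideal.exists_pow_le_of_le_radical_of_fg (I := maximalIdeal A)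
    (J := Ideal.span {x, y}) (by
      rw [h.max, Ideal.span_le]
      rintro a (rfl | rfl | rfl)
      · exact Ideal.le_radical (Ideal.subset_span (by simp))
      · exact Ideal.le_radical (Ideal.subset_span (by simp))
      · exact ⟨n, h.rel ▸ Ideal.mul_mem_right _ _ (Ideal.subset_span (by simp))⟩)
    (h.max ▸ Submodule.fg_span (Set.toFinite _))
  exact ⟨k, (Ideal.pow_le_pow_right (Nat.le_succ k)).trans hk⟩

end IsAn

end Pool.Agent.Lib.MP_86e60f_al.An
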