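import Mathlib

set_option autoImplicit false

open IsLocalRing Polynomial

namespace Pool.Agent.Lib.MP_86e60f_al.An

variable {A : Type} [CommRing A]

theorem precomplete_of_finite (I : Ideal A) [IsPrecomplete I A] (B : Type) [AddCommGroup B]
    [Module A B] [Module.Finite A B] : IsPrecomplete I B := by
  refine AdicCompletion.of_surjective_iff.1 fun t => ?_
  obtain ⟨s, rfl⟩ := AdicCompletion.ofTensorProduct_surjective_of_finite I B t
  induction s using TensorProduct.induction_on with
  | zero => exact ⟨0, by simp⟩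
  | tmul r b =>
    obtain ⟨r, rfl⟩ := AdicCompletion.of_surjective I A r
    refine ⟨r • b, ?_⟩
    rw [AdicCompletion.ofTensorProduct_tmul, map_smul]
    exact (algebraMap_smul (AdicCompletion I A) r _).symm
  | add s t hs ht =>
    obtain ⟨a, ha⟩ := hs
    obtain ⟨b, hb⟩ := ht
    exact ⟨a + b, by rw [map_add, map_add, ha, hb]⟩

variable [IsLocalRing A] [IsNoetherianRing A] [IsAdicComplete (maximalIdeal A) A]

/-- Fitting decomposition of an element of a finite algebra over a complete local ring. -/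
theorem fitting_alg (B : Type) [CommRing B] [Algebra A B] [Module.Finite A B] (a : B) :
    ∃ (e b : B) (N : ℕ), e * e = e ∧ e = a * b ∧
      (1 - e) * a ^ N ∈ (maximalIdeal A).map (algebraMap A B) := by
  set I := (maximalIdeal A).map (algebraMap A B) with hI
  have h1 : IsPrecomplete I B :=
    IsPrecomplete.map_algebraMap_iff.2 (precomplete_of_finite (maximalIdeal A) B)
  have h2 : IsHausdorff I B := IsHausdorff.map_algebraMap_iff.2 inferInstance
  have h3 : IsAdicComplete I B := {}
  let _ := Ideal.Quotient.field (maximalIdeal A)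
  have h4 : Module.Finite (A ⧸ maximalIdeal A) (B ⧸ I) :=
    Module.Finite.of_restrictScalars_finite A _ _
  have h5 : IsArtinianRing (B ⧸ I) := IsArtinianRing.of_finite (A ⧸ maximalIdeal A) _
  obtain ⟨N, c, hc⟩ := IsArtinian.exists_pow_succ_smul_dvd (Ideal.Quotient.mk I a) (1 : B ⧸ I)
  obtain ⟨c, rfl⟩ := Ideal.Quotient.mk_surjective c
  rw [smul_eq_mul, smul_eq_mul, mul_one] at hc
  have h6 : ∀ t : ℕ, Ideal.Quotient.mk I a ^ N *
      (Ideal.Quotient.mk I a * Ideal.Quotient.mk I c) ^ t = Ideal.Quotient.mk I a ^ N := by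
    intro t
    induction t with
    | zero => simp
    | succ t ih => rw [pow_succ', ← mul_assoc, ← mul_assoc, ← pow_succ, hc, ih]
  have h7 : Ideal.Quotient.mk I ((a * c) ^ (N + 1)) * Ideal.Quotient.mk I ((a * c) ^ (N + 1)) =
      Ideal.Quotient.mk I ((a * c) ^ (N + 1)) := by
    have := h6 (N + 1)
    rw [map_pow, map_mul]
    linear_combination (Ideal.Quotient.mk I a * Ideal.Quotient.mk I c ^ (N + 1)) * this
  obtain ⟨e, he, he'⟩ := HenselianRing.is_henselian (R := B) (I := I) (X ^ 2 - X)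
    (monic_X_pow_sub (by simpa using (by decide : (1 : WithBot ℕ) < 2) |>.trans_le' degree_X_le))
    ((a * c) ^ (N + 1)) (by
      rw [← Ideal.Quotient.eq_zero_iff_mem, eval_sub, eval_pow, eval_X, map_sub, pow_two, map_mul,
        h7, sub_self]) (by
      refine IsUnit.of_mul_eq_one (Ideal.Quotient.mk I (2 * (a * c) ^ (N + 1) - 1)) ?_
      simp only [derivative_sub, derivative_X_pow, derivative_X, eval_sub, eval_mul, eval_C,
        eval_pow, eval_X, eval_one, map_sub, map_mul, map_one, map_ofNat, Nat.cast_ofNat,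
        eval_ofNat, Nat.add_one_sub_one, pow_one]
      linear_combination 4 * h7)
  have h8 : e * e = e := by
    have : e ^ 2 - e = 0 := by simpa using he
    linear_combination this
  have h9 : e * (e - (a * c) ^ (N + 1)) ∈ I := I.mul_mem_left _ he'
  obtain ⟨u, hu⟩ := (Ideal.mem_jacobson_bot.1
    (IsAdicComplete.le_jacobson_bot I h9) (-1)).exists_right_inv
  refine ⟨e, a ^ N * c ^ (N + 1) * e * u, N, h8, ?_, ?_⟩
  · linear_combination (-e) * hu + (u * ((a * c) ^ (N + 1) - e - 1)) * h8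
  · have h10 : Ideal.Quotient.mk I e = Ideal.Quotient.mk I ((a * c) ^ (N + 1)) :=
      Ideal.Quotient.eq.2 he'
    rw [← Ideal.Quotient.eq_zero_iff_mem, map_mul, map_sub, h10, map_one, map_pow, map_pow,
      map_mul]
    linear_combination -h6 (N + 1)

/-- The same decomposition, in terms of polynomials modulo a monic polynomial. -/
theorem fitting_poly (p : A[X]) (hp : p.Monic) (u v : A) (k : ℕ)
    (hk : maximalIdeal A ^ (k + 1) ≤ Ideal.span {u, v}) :
    ∃ (E b q1 q2 : A[X]) (N : ℕ), p ∣ E * E - E ∧ p ∣ E - b * X ∧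
      p ∣ (1 - E) * X ^ (N + 1) - (C u * q1 + C v * q2) := by
  have := hp.finite_adjoinRoot
  obtain ⟨e, b, N, h1, h2, h3⟩ := fitting_alg (A := A) (AdjoinRoot p) (AdjoinRoot.root p)
  have h4 := Ideal.pow_mem_pow h3 (k + 1)
  rw [← Ideal.map_pow] at h4
  have h5 := Ideal.map_mono hk h4
  rw [Ideal.map_span, Set.image_pair] at h5
  obtain ⟨q1, q2, h6⟩ := Ideal.mem_span_pair.1 h5
  have h7 : (1 - e) ^ (k + 1) = 1 - e := (IsIdempotentElem.one_sub h1).pow_succ_eq k
  obtain ⟨E, rfl⟩ := AdjoinRoot.mk_surjective e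
  obtain ⟨b, rfl⟩ := AdjoinRoot.mk_surjective b
  obtain ⟨q1, rfl⟩ := AdjoinRoot.mk_surjective q1
  obtain ⟨q2, rfl⟩ := AdjoinRoot.mk_surjective q2
  refine ⟨E, b, q1 * X, q2 * X, N * (k + 1), ?_, ?_, ?_⟩
  · rw [← AdjoinRoot.mk_eq_mk, map_mul, h1]
  · rw [← AdjoinRoot.mk_eq_mk, map_mul, h2, AdjoinRoot.mk_X, mul_comm]
  · rw [← AdjoinRoot.mk_eq_mk]
    rw [mul_pow, h7, ← pow_mul, AdjoinRoot.algebraMap_eq] at h6
    simp only [map_mul, map_add, map_sub, map_pow, map_one, AdjoinRoot.mk_X, AdjoinRoot.mk_C]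
    linear_combination (-AdjoinRoot.root p) * h6

end Pool.Agent.Lib.MP_86e60f_al.An
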