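import Mathlib
import Pool.Agent.Lib.MP_86e60f_al.An.Det
import Pool.Agent.Lib.MP_86e60f_al.An.Idem

set_option autoImplicit false

open IsLocalRing Polynomial

namespace Pool.Agent.Lib.MP_86e60f_al.An

variable {A : Type} [CommRing A]

theorem aeval_intertwine {X F : Type} [AddCommGroup X] [Module A X] [AddCommGroup F] [Module A F]
    (ι : X →ₗ[A] F) (a : Module.End A X) (α : Module.End A F) (h : ∀ ξ, ι (a ξ) = α (ι ξ))
    (P : A[X]) (ξ : X) : ι (aeval a P ξ) = aeval α P (ι ξ) := by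
  have h1 : ∀ (k : ℕ) ξ, ι ((a ^ k) ξ) = (α ^ k) (ι ξ) := fun k => by
    induction k with
    | zero => simp
    | succ k ih => intro ξ; rw [pow_succ, pow_succ, Module.End.mul_apply, Module.End.mul_apply,
        ih, h]
  induction P using Polynomial.induction_on' with
  | add p q hp hq => simp [hp, hq]
  | monomial k c => simp [aeval_monomial, h1, Module.algebraMap_end_apply]

theorem ring_aux {Λ : Type} [Ring Λ] (P : AddSubgroup Λ) (ml : ∀ a c : Λ, c ∈ P → a * c ∈ P)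
    (mr : ∀ a c : Λ, c ∈ P → c * a ∈ P) (ε γ e b : Λ) (N : ℕ) (hε : ε * ε = ε) (hγ : γ ∈ P)
    (e2 : e = b * (ε - γ)) (e3 : (1 - e) * (ε - γ) ^ (N + 1) ∈ P) : e - ε ∈ P := by
  have pw : ∀ k : ℕ, ε - (ε - γ) ^ (k + 1) ∈ P := fun k => by
    induction k with
    | zero => simpa using hγ
    | succ k ih =>
      have : ε - (ε - γ) ^ (k + 1 + 1) =
          (ε - (ε - γ) ^ (k + 1)) * ε + (ε - γ) ^ (k + 1) * γ := by
        rw [pow_succ _ (k + 1), sub_mul, hε, mul_sub]; abel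
      rw [this]
      exact add_mem (mr _ _ ih) (ml _ _ hγ)
  have h4 : (1 - e) * ε ∈ P := by
    have : (1 - e) * ε = (1 - e) * (ε - (ε - γ) ^ (N + 1)) + (1 - e) * (ε - γ) ^ (N + 1) := by
      rw [mul_sub, sub_add_cancel]
    rw [this]
    exact add_mem (ml _ _ (pw N)) e3
  have h5 : e * (1 - ε) ∈ P := by
    have : e * (1 - ε) = -(b * (γ * (1 - ε))) := by
      rw [e2, mul_assoc, sub_mul, mul_sub ε, hε, mul_one, sub_self, zero_sub, mul_neg]
    rw [this]
    exact neg_mem (ml _ _ (mr _ _ hγ))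
  have : e - ε = e * (1 - ε) - (1 - e) * ε := by
    rw [mul_sub, sub_mul, mul_one, one_mul]; abel
  rw [this]
  exact sub_mem h5 h4

variable [IsDomain A] [IsLocalRing A] [IsNoetherianRing A] [IsAdicComplete (maximalIdeal A) A]
  {x y z : A} {n : ℕ}

/-- A stable idempotent that comes from the presentation comes from an idempotent. -/
theorem IsAn.exists_idem (h : IsAn A x y z n) {m : ℕ} {X : Type} [AddCommGroup X] [Module A X]
    (ι : X →ₗ[A] (Fin m → A)) (hι : Function.Injective ι)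
    (hx : x • (LinearMap.id : X →ₗ[A] X) ∈ PF A X X)
    (hy : y • (LinearMap.id : X →ₗ[A] X) ∈ PF A X X) (ε γ : Module.End A X) (hε : ε * ε = ε)
    (hγ : γ ∈ PF A X X) (α : Module.End A (Fin m → A))
    (hα : ι ∘ₗ (ε - γ) = α ∘ₗ ι) :
    ∃ (e : Module.End A X) (eF : Module.End A (Fin m → A)), e * e = e ∧ eF * eF = eF ∧
      (∀ ξ, ι (e ξ) = eF (ι ξ)) ∧ e - ε ∈ PF A X X := by
  have hi := aeval_intertwine ι (ε - γ) α (LinearMap.congr_fun hα)
  obtain ⟨p, hp, hp0⟩ := LinearMap.exists_monic_and_aeval_eq_zero A α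
  have hp1 : aeval (ε - γ) p = 0 := LinearMap.ext fun ξ => hι (by
    rw [hi, hp0]; simp)
  obtain ⟨k, hk⟩ := h.max_pow
  obtain ⟨E, b, q1, q2, N, ⟨c1, h1⟩, ⟨c2, h2⟩, c3, h3⟩ := fitting_poly p hp x y k hk
  have e1 := congrArg (aeval (ε - γ)) h1
  have e1' := congrArg (aeval α) h1
  have e2 := congrArg (aeval (ε - γ)) h2
  have e3 := congrArg (aeval (ε - γ)) h3
  simp only [map_mul, map_sub, map_add, map_pow, map_one, hp0, hp1, zero_mul, aeval_X, aeval_C,
    sub_eq_zero, ← Algebra.smul_def] at e1 e1' e2 e3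
  refine ⟨_, _, e1, e1', hi E, ?_⟩
  refine ring_aux (Λ := Module.End A X) (PF A X X).toAddSubgroup (fun a c hc => comp_PF hc a)
    (fun a c hc => PF_comp hc a) ε γ _ _ N hε hγ e2 ?_
  rw [e3]
  exact add_mem (PF_comp hx _) (PF_comp hy _)

theorem IsAn.no_summand (h : IsAn A x y z n) {m : ℕ} {X : Type} [AddCommGroup X] [Module A X]
    [Module.Finite A X] (ι : X →ₗ[A] (Fin m → A)) (hι : Function.Injective ι)
    (sG : Multiset A) (hs : ∀ g ∈ sG, Prime g) (μ0 : (Fin m → A) →ₗ[A] X)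
    (hμ0 : ∀ f, ι (μ0 f) = sG.prod • f) {i : ℕ} (h1 : 1 ≤ i)
    (h2 : i < n) (s : (Ideal.span {x, z ^ i} : Ideal A) →ₗ[A] X)
    (r : X →ₗ[A] (Ideal.span {x, z ^ i} : Ideal A)) (hrs : ∀ a, r (s a) = a)
    (e : Module.End A X) (eF : Module.End A (Fin m → A)) (he : e * e = e) (heF : eF * eF = eF)
    (hi : ∀ ξ, ι (e ξ) = eF (ι ξ)) (hδ : e - s ∘ₗ r ∈ PF A X X) : False := by
  have he' : ∀ ξ, e (e ξ) = e ξ := LinearMap.congr_fun he
  have heF' : ∀ ξ, eF (eF ξ) = eF ξ := LinearMap.congr_fun heF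
  have hG : sG.prod ≠ 0 := Multiset.prod_ne_zero fun h0 => (hs 0 h0).ne_zero rfl
  have hθ : Function.Surjective (r ∘ₗ e ∘ₗ s) := by
    rw [← LinearMap.range_eq_top, eq_top_iff]
    refine Submodule.le_of_le_smul_of_le_jacobson_bot (I := maximalIdeal A) Module.Finite.fg_top
      (by rw [jacobson_eq_maximalIdeal ⊥ bot_ne_top]) fun a _ => ?_
    have h3 := h.PF_le h1 h2 (comp_PF (PF_comp hδ s) r) a
    have h4 : a = (r ∘ₗ e ∘ₗ s) a + -(r ∘ₗ (e - s ∘ₗ r) ∘ₗ s) a := by simp [hrs]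
    rw [h4]
    exact Submodule.add_mem_sup ⟨a, rfl⟩ (neg_mem h3)
  let Θ := LinearEquiv.ofBijective (r ∘ₗ e ∘ₗ s)
    ⟨IsNoetherian.injective_of_surjective_endomorphism _ hθ, hθ⟩
  have hΘ : ∀ a, r (e (s (Θ.symm a))) = a := Θ.apply_symm_apply
  have hΘ' : ∀ a, Θ.symm (r (e (s a))) = a := Θ.symm_apply_apply
  let Y : Submodule A X := LinearMap.ker r ⊓ LinearMap.eqLocus e LinearMap.id
  have hY : ∀ ξ : Y, r ξ = 0 ∧ e ξ = ξ := fun ξ => ξ.2
  let ρ : X →ₗ[A] Y := (e - e ∘ₗ s ∘ₗ Θ.symm.toLinearMap ∘ₗ r ∘ₗ e).codRestrict Y fun ξ =>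
    ⟨by simp [hΘ], by simp [he']⟩
  have hρ : ∀ ξ, (ρ ξ : X) = e ξ - e (s (Θ.symm (r (e ξ)))) := fun ξ => rfl
  have hρY : ∀ ξ : Y, ρ ξ = ξ := fun ξ => Subtype.ext (by simp [hρ, hY])
  have hYp : Module.Projective A Y := projective_of_PF (by
    convert comp_PF (Z := Y) (PF_comp (Z := Y) hδ Y.subtype) ρ using 1
    refine LinearMap.ext fun ξ => ?_
    simp [hY, hρY])
  have hYf : Module.Free A Y := Module.free_of_flat_of_isLocalRing
  let F1 : Submodule A (Fin m → A) := LinearMap.eqLocus eF LinearMap.id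
  have hF1 : ∀ f : F1, eF f = f := fun f => f.2
  have hFp : Module.Projective A F1 := Module.Projective.of_split F1.subtype
    (eF.codRestrict F1 fun f => heF' f) (LinearMap.ext fun f => Subtype.ext (hF1 f))
  have hFf : Module.Free A F1 := Module.free_of_flat_of_isLocalRing
  let μ : F1 →ₗ[A] X := μ0 ∘ₗ F1.subtype
  have hμ : ∀ f, ι (μ f) = sG.prod • (f : Fin m → A) := fun f => hμ0 f
  have hμe : ∀ f, e (μ f) = μ f := fun f => hι (by rw [hi, hμ, map_smul, hF1])
  let φ : ((Ideal.span {x, z ^ i} : Ideal A) × Y) →ₗ[A] F1 :=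
    (ι ∘ₗ (e ∘ₗ s).coprod Y.subtype).codRestrict F1 fun v => by
      change eF (ι (e (s v.1) + v.2)) = ι (e (s v.1) + v.2)
      rw [← hi, map_add, he', (hY _).2]
  have hφ : ∀ v, (φ v : Fin m → A) = ι (e (s v.1) + v.2) := fun v => rfl
  have hμφ : ∀ v, μ (φ v) = sG.prod • (e (s v.1) + v.2) := fun v => hι (by
    rw [hμ, hφ, map_smul])
  obtain ⟨k, d, hd, hd'⟩ := det_step (Ideal.span {x, z ^ i}) (a0 := x)
    (Ideal.subset_span (by simp)) h.x_ne φ
    ((Θ.symm.toLinearMap ∘ₗ r ∘ₗ μ).prod (ρ ∘ₗ μ)) hG (fun v => by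
      refine Prod.ext ?_ (Subtype.ext ?_)
      · change Θ.symm (r (μ (φ v))) = sG.prod • v.1
        rw [hμφ, map_smul, map_smul, map_add, (hY _).1, add_zero, hΘ']
      · change (ρ (μ (φ v)) : X) = sG.prod • (v.2 : X)
        rw [hμφ, map_smul, map_add, hρY, Submodule.coe_smul, Submodule.coe_add, hρ, he', hΘ',
          sub_self, zero_add]) (fun f => by
      refine Subtype.ext ?_
      change ι (e (s (Θ.symm (r (μ f)))) + ρ (μ f)) = sG.prod • (f : Fin m → A)
      rw [hρ, hμe, add_sub_cancel, hμ])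
  refine h.not_principal h1 h2 (principal_of_primes _ (k • sG)
    (fun g hg => hs g (Multiset.mem_of_mem_nsmul hg))
    (fun g hg => h.prime_reg (hs g (Multiset.mem_of_mem_nsmul hg)) h2.le) d hd ?_)
  rwa [Multiset.prod_nsmul]

/-- The core statement: the first syzygy is projective. -/
theorem IsAn.core (h : IsAn A x y z n) {M : Type} [AddCommGroup M] [Module A M] {m : ℕ}
    (π : (Fin m → A) →ₗ[A] M) (hπ : Function.Surjective π) (sG : Multiset A)
    (hs : ∀ g ∈ sG, Prime g) (hGM : ∀ v : M, sG.prod • v = 0) {c c' : A}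
    (hc : c ∈ maximalIdeal A) (hcM : IsSMulRegular M c) (hc' : c' ∈ maximalIdeal A)
    (hcT : IsSMulRegular (TensorProduct A M (M →ₗ[A] A ⧸ Ideal.span {sG.prod})) c') :
    Module.Projective A (LinearMap.ker π) := by
  classical
  have hG : sG.prod ≠ 0 := Multiset.prod_ne_zero fun h0 => (hs 0 h0).ne_zero rfl
  obtain ⟨k, hk⟩ := h.max_pow
  generalize hXe : LinearMap.ker π = X
  have hX : ∀ f, f ∈ X ↔ π f = 0 := fun f => by rw [← hXe]; rfl
  let j : (Fin m → A) →ₗ[A] (Fin m → FractionRing A) :=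
    (Algebra.linearMap A (FractionRing A)).compLeft (Fin m)
  have hj : Function.Injective j := fun a b e => funext fun p =>
    FaithfulSMul.algebraMap_injective A (FractionRing A) (congrFun e p)
  obtain ⟨r, i, hi, ⟨Φ0⟩⟩ := h.classify (X := X.map j) ((IsNoetherian.noetherian X).map j) (by
    rintro f ⟨a, ha, ha'⟩ ⟨b, hb, hb'⟩
    have h1 : y • a = x • b := hj (by rw [map_smul, map_smul, ha', hb', smul_comm])
    choose t ht using fun p => h.div_x (congrFun h1 p)
    have h2 : a = x • t := funext ht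
    have h3 : b = y • t := smul_right_injective _ h.x_ne (by
      change x • b = x • y • t
      rw [← h1, h2, smul_comm])
    have h4 : j t = f := smul_right_injective _ (alg_ne (FractionRing A) h.x_ne) (by
      change algebraMap A (FractionRing A) x • j t = algebraMap A (FractionRing A) x • f
      rw [algebraMap_smul, algebraMap_smul, ← ha', h2, map_smul])
    refine ⟨t, (hX t).2 ((hcM.pow (k + 1)).right_eq_zero_of_smul ?_), h4⟩
    obtain ⟨u, v, huv⟩ := Ideal.mem_span_pair.1 (hk (Ideal.pow_mem_pow hc (k + 1)))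
    rw [← huv, add_smul, mul_smul, mul_smul, ← map_smul, ← map_smul π y, ← h2, ← h3,
      (hX a).1 ha, (hX b).1 hb, smul_zero, smul_zero, add_zero]) (FractionRing A)
  let Φ := Φ0.trans (Submodule.equivMapOfInjective j hj X).symm
  let s : ∀ l, (Ideal.span {x, z ^ i l} : Ideal A) →ₗ[A] X := fun l =>
    Φ.toLinearMap ∘ₗ LinearMap.single A (fun l => (Ideal.span {x, z ^ i l} : Ideal A)) l
  let ρ : ∀ l, X →ₗ[A] (Ideal.span {x, z ^ i l} : Ideal A) := fun l =>
    LinearMap.proj l ∘ₗ Φ.symm.toLinearMap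
  have hrs : ∀ l a, ρ l (s l a) = a := fun l a => by simp [s, ρ]
  have hsum : ∀ w : A, (∀ l, w • (LinearMap.id : (Ideal.span {x, z ^ i l} : Ideal A) →ₗ[A] _) ∈
      PF A (Ideal.span {x, z ^ i l} : Ideal A) (Ideal.span {x, z ^ i l} : Ideal A)) →
      w • (LinearMap.id : X →ₗ[A] X) ∈ PF A X X := fun w hw => by
    convert Submodule.sum_mem _ fun l (_ : l ∈ Finset.univ) =>
      comp_PF (PF_comp (hw l) (ρ l)) (s l) using 1
    refine LinearMap.ext fun ξ => ?_
    simp only [s, ρ, LinearMap.sum_apply, LinearMap.comp_apply, LinearMap.smul_apply,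
      LinearMap.id_apply, map_smul, LinearEquiv.coe_coe, LinearMap.coe_single, LinearMap.coe_proj,
      Function.eval, ← Finset.smul_sum, ← map_sum, Finset.univ_sum_single,
      LinearEquiv.apply_symm_apply]
  have hx := hsum x fun l => h.x_PF _
  have hy := hsum y fun l => h.y_PF (hi l).le
  refine projective_of_PF ?_
  rw [← one_smul A LinearMap.id]
  refine hsum 1 fun l => ?_
  by_cases h0 : i l = 0
  · have h1 : (1 : A) ∈ Ideal.span {x, z ^ i l} := Ideal.subset_span (by simp [h0])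
    convert smulRight_mem (Ideal.span {x, z ^ i l} : Ideal A).subtype
      (⟨1, h1⟩ : (Ideal.span {x, z ^ i l} : Ideal A)) using 1
    ext v
    simp
  · exfalso
    obtain ⟨u, v, huv⟩ := Ideal.mem_span_pair.1 (hk (Ideal.pow_mem_pow hc' (k + 1)))
    obtain ⟨γ, hγ, α, hα⟩ := lift_end π hπ X hX (IsRegular.of_ne_zero hG) hGM (hcT.pow (k + 1))
      (by
        rw [← huv, add_smul, mul_smul, mul_smul]
        exact add_mem (Submodule.smul_mem _ _ hx) (Submodule.smul_mem _ _ hy)) (s l ∘ₗ ρ l)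
    obtain ⟨e, eF, he, heF, hi', hδ⟩ := h.exists_idem X.subtype X.injective_subtype hx hy (s l ∘ₗ ρ l) γ
      (LinearMap.ext fun ξ => by simp [hrs]) hγ α hα
    exact h.no_summand X.subtype X.injective_subtype sG hs
      ((sG.prod • LinearMap.id : (Fin m → A) →ₗ[A] (Fin m → A)).codRestrict X
        fun f => (hX _).2 (by simp [hGM])) (fun _ => rfl) (by omega) (hi l)
      (s l) (ρ l) (hrs l) e eF he heF hi' hδ

end Pool.Agent.Lib.MP_86e60f_al.An
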