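import Mathlib
import Pool.Agent.Lib.MP_86e60f_al.RegSeq
import Pool.Agent.Lib.MP_86e60f_al.Homological
import Pool.Agent.Lib.MP_86e60f_al.An.Core

set_option autoImplicit false

open IsLocalRing CategoryTheory
open scoped TensorProduct

namespace Pool.Agent.Lib.MP_86e60f_al.An

/-- The quotient of a three-dimensional regular local ring by `x y - z ^ n`. -/
theorem isAn_of {S R : Type} [CommRing S] [IsLocalRing S] [IsNoetherianRing S] [CommRing R]
    [IsLocalRing R] {x y z : S} (hreg : RingTheory.Sequence.IsRegular S [x, y, z])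
    (hmax : maximalIdeal S = Ideal.span {x, y, z}) {n : ℕ} (hn : 2 ≤ n) (π : S →+* R)
    (hπ : Function.Surjective π) (hker : RingHom.ker π = Ideal.span {x * y - z ^ n}) :
    IsAn R (π x) (π y) (π z) n := by
  have hxm : x ∈ maximalIdeal S := hmax ▸ Ideal.subset_span (by simp)
  have hym : y ∈ maximalIdeal S := hmax ▸ Ideal.subset_span (by simp)
  have hzm : z ∈ maximalIdeal S := hmax ▸ Ideal.subset_span (by simp)
  have h0 : RingTheory.Sequence.IsWeaklyRegular S [x, z, y] :=
    IsLocalRing.isWeaklyRegular_of_perm_of_subset_maximalIdeal hreg.toIsWeaklyRegular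
      ((List.Perm.swap z y []).cons x) (by simpa using ⟨hxm, hym, hzm⟩)
  obtain ⟨r1, r2, r3, -⟩ := (isWeaklyRegular_self_iff _).1 h0
  rw [bot_sup_eq] at r2 r3
  rw [← Ideal.span_insert] at r3
  have r4 : ∀ i a, y * a ∈ Ideal.span {x, z ^ i} → a ∈ Ideal.span {x, z ^ i} := by
    intro i
    induction i with
    | zero => intro a _; exact Ideal.mem_span_pair.2 ⟨0, a, by simp⟩
    | succ i ih =>
      intro a ha
      obtain ⟨u, v, huv⟩ := Ideal.mem_span_pair.1 ha
      obtain ⟨a1, a2, rfl⟩ := Ideal.mem_span_pair.1 (r3 a (Ideal.mem_span_pair.2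
        ⟨u, v * z ^ i, by rw [← huv]; ring⟩))
      obtain ⟨w, hw⟩ := Ideal.mem_span_singleton'.1 (r2 (y * a2 - v * z ^ i)
        (Ideal.mem_span_singleton'.2 ⟨u - y * a1, by linear_combination huv⟩))
      obtain ⟨b1, b2, rfl⟩ := Ideal.mem_span_pair.1 (ih a2 (Ideal.mem_span_pair.2
        ⟨w, v, by linear_combination hw⟩))
      exact Ideal.mem_span_pair.2 ⟨a1 + b1 * z, b2, by ring⟩
  have hk : ∀ {a : S} {J : Ideal S}, π a ∈ J.map π → ∃ b ∈ J, ∃ c, a = b + c * (x * y - z ^ n) :=
    fun {a J} ha => by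
      obtain ⟨b, hb, hab⟩ := (Ideal.mem_map_iff_of_surjective π hπ).1 ha
      obtain ⟨c, hc⟩ := Ideal.mem_span_singleton'.1 (hker ▸ (RingHom.sub_mem_ker_iff π).2 hab.symm)
      exact ⟨b, hb, c, by rw [hc]; ring⟩
  have hmap : maximalIdeal R = (maximalIdeal S).map π :=
    (map_maximalIdeal_of_surjective π hπ).symm
  have hone : (1 : S) ∉ maximalIdeal S := (Ideal.ne_top_iff_one _).1 (maximalIdeal.isMaximal S).ne_top
  refine ⟨hn, ?_, ?_, fun i hi a ha => ?_, fun hx => ?_, fun i hi hz => ?_⟩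
  · rw [← map_mul, ← map_pow, ← RingHom.sub_mem_ker_iff, hker]
    exact Ideal.mem_span_singleton_self _
  · rw [hmap, hmax, Ideal.map_span, Set.image_insert_eq, Set.image_pair]
  · obtain ⟨a, rfl⟩ := hπ a
    have e : Ideal.span {π x, π z ^ i} = (Ideal.span {x, z ^ i}).map π := by
      rw [Ideal.map_span, Set.image_pair, map_pow]
    rw [e] at ha ⊢
    rw [← map_mul] at ha
    obtain ⟨b, hb, c, hc⟩ := hk ha
    refine Ideal.mem_map_of_mem π (r4 i a ?_)
    rw [hc]
    obtain ⟨t, rfl⟩ := Nat.exists_eq_add_of_le hi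
    exact add_mem hb (Ideal.mul_mem_left _ _ (Ideal.mem_span_pair.2 ⟨y, -z ^ t, by ring⟩))
  · rw [hmap, ← Ideal.map_pow] at hx
    obtain ⟨b, hb, c, hc⟩ := hk hx
    have h1 : x ∈ maximalIdeal S * maximalIdeal S := by
      rw [hc, ← pow_two]
      refine add_mem hb (Ideal.mul_mem_left _ _ (sub_mem ?_ ?_))
      · rw [pow_two]; exact Ideal.mul_mem_mul hxm hym
      · exact Ideal.pow_le_pow_right hn (Ideal.pow_mem_pow hzm n)
    have h2 : ∀ w ∈ maximalIdeal S * maximalIdeal S, ∃ α ∈ maximalIdeal S,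
        ∃ β ∈ maximalIdeal S, ∃ γ ∈ maximalIdeal S, w = α * x + β * y + γ * z := fun w hw => by
      refine Submodule.mul_induction_on hw (fun p hp q hq => ?_) ?_
      · rw [hmax] at hq
        obtain ⟨u, r, hr, rfl⟩ := Ideal.mem_span_insert.1 hq
        obtain ⟨v, w, rfl⟩ := Ideal.mem_span_pair.1 hr
        exact ⟨p * u, Ideal.mul_mem_right _ _ hp, p * v, Ideal.mul_mem_right _ _ hp, p * w,
          Ideal.mul_mem_right _ _ hp, by ring⟩
      · rintro _ _ ⟨a1, h1, b1, h2, c1, h3, rfl⟩ ⟨a2, h4, b2, h5, c2, h6, rfl⟩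
        exact ⟨a1 + a2, add_mem h1 h4, b1 + b2, add_mem h2 h5, c1 + c2, add_mem h3 h6, by ring⟩
    obtain ⟨α, hα, β, -, γ, -, e⟩ := h2 x h1
    obtain ⟨c1, c2, rfl⟩ := Ideal.mem_span_pair.1 (r3 β (Ideal.mem_span_pair.2
      ⟨1 - α, -γ, by linear_combination e⟩))
    obtain ⟨c3, h3⟩ := Ideal.mem_span_singleton'.1 (r2 (γ + c2 * y)
      (Ideal.mem_span_singleton'.2 ⟨1 - α - c1 * y, by linear_combination e⟩))
    have h4 : 1 - α - c1 * y - c3 * z = 0 := r1 _ (by
      rw [Ideal.mem_bot]; linear_combination e - z * h3)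
    refine hone ?_
    rw [show (1 : S) = α + c1 * y + c3 * z by linear_combination h4]
    exact add_mem (add_mem hα (Ideal.mul_mem_left _ _ hym)) (Ideal.mul_mem_left _ _ hzm)
  · have e : Ideal.span {π x} = (Ideal.span {x}).map π := by
      rw [Ideal.map_span, Set.image_singleton]
    rw [e, ← map_pow] at hz
    obtain ⟨b, hb, c, hc⟩ := hk hz
    obtain ⟨u, rfl⟩ := Ideal.mem_span_singleton'.1 hb
    obtain ⟨t, rfl⟩ := Nat.exists_eq_add_of_lt hi
    have h1 : ∀ (j : ℕ) (a : S), z ^ j * a ∈ Ideal.span {x} → a ∈ Ideal.span {x} := fun j => by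
      induction j with
      | zero => simp
      | succ j ih => intro a ha; exact ih a (r2 _ (by rwa [← mul_assoc, ← pow_succ']))
    obtain ⟨w, hw⟩ := Ideal.mem_span_singleton'.1 (h1 i (1 + c * z ^ t * z)
      (Ideal.mem_span_singleton'.2 ⟨u + c * y, by linear_combination -hc⟩))
    refine hone ?_
    rw [show (1 : S) = w * x - c * z ^ t * z by linear_combination -hw]
    exact sub_mem (Ideal.mul_mem_left _ _ hxm) (Ideal.mul_mem_left _ _ hzm)

variable {R : Type} [CommRing R] [IsDomain R] [IsLocalRing R]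

/-- A Cohen-Macaulay module of codimension one has a regular element when the maximal ideal has
height at least two. -/
theorem exists_reg {N : Type} [AddCommGroup N] [Module R N] (P : Ideal R) [P.IsPrime]
    (h0 : ⊥ < P) (h1 : P < maximalIdeal R) (h : IsCMOfCodim R N 1) :
    ∃ x ∈ maximalIdeal R, IsSMulRegular N x := by
  obtain ⟨hN, hd, hc⟩ := h
  have e1 := Ideal.height_add_one_le_of_lt_of_isPrime h0
  have e2 := Ideal.height_add_one_le_of_lt_of_isPrime h1
  have e3 : (2 : ℕ∞) ≤ (maximalIdeal R).height :=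
    le_trans (add_le_add_left (le_add_self.trans e1) 1) e2
  obtain ⟨p, hp, hne⟩ : ∃ p ∈ Module.support R N, p ≠ closedPoint R := by
    by_contra! hall
    have : (2 : ℕ∞) ≤ cod R N := le_iInf₂ fun p hp => by rw [hall p hp]; exact e3
    rw [hc] at this
    exact absurd this (by decide)
  have e4 : 0 < Module.supportDim R N := Order.krullDim_pos_iff.2
    ⟨⟨p, hp⟩, ⟨closedPoint R, closedPoint_mem_support R N⟩,
      lt_of_le_of_ne (le_maximalIdeal p.2.ne_top) fun e => hne (congrArg Subtype.val e)⟩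
  rw [← hd] at e4
  have e5 : 0 < depth R N := by exact_mod_cast e4
  obtain ⟨rs, e6⟩ := lt_iSup_iff.1 e5
  obtain ⟨⟨m1, m2⟩, e7⟩ := lt_iSup_iff.1 e6
  cases rs with
  | nil => simp at e7
  | cons x rs =>
    exact ⟨x, m1 x List.mem_cons_self,
      ((RingTheory.Sequence.isWeaklyRegular_cons_iff N x rs).1 m2.1).1⟩

/-- Condition `(C_2)` for modules supported on principal primes. -/
theorem IsAn.c2 [IsNoetherianRing R] [IsAdicComplete (maximalIdeal R) R] {x y z : R} {n : ℕ}
    (h : IsAn R x y z n) (M : Type) [AddCommGroup M] [Module R M] [Module.Finite R M]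
    (hM : IsCMOfCodim R M 1)
    (hT : IsCMOfCodim R (M ⊗[R] Abelian.Ext.{0} (ModuleCat.of R M) (ModuleCat.of R R) 1) 1)
    (hP : ∀ p ∈ (Module.annihilator R M).minimalPrimes, p.IsPrincipal) :
    projectiveDimension (ModuleCat.of R M) ≠ ⊤ := by
  classical
  have h1 : ∀ p ∈ (Module.annihilator R M).minimalPrimes, ∃ g, Prime g ∧ p = Ideal.span {g} := by
    intro p hp
    obtain ⟨g, rfl⟩ := hP p hp
    have hpp : (Ideal.span {g}).IsPrime := hp.1.1
    have hg : g ≠ 0 := by
      rintro rfl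
      have h2 : cod R M ≤ (Ideal.span {(0 : R)}).height :=
        iInf₂_le (⟨_, hpp⟩ : PrimeSpectrum R) (Module.mem_support_iff_of_finite.2 hp.1.2)
      rw [hM.2.2, Ideal.span_singleton_zero, Ideal.height_bot] at h2
      exact absurd h2 (by decide)
    exact ⟨g, (Ideal.span_singleton_prime hg).1 hpp, rfl⟩
  choose! g hg hg' using h1
  have hfin := Ideal.finite_minimalPrimes_of_isNoetherianRing R (Module.annihilator R M)
  obtain ⟨N, hN⟩ : (hfin.toFinset.val.map g).prod ∈ (Module.annihilator R M).radical := by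
    rw [← Ideal.sInf_minimalPrimes, Submodule.mem_sInf]
    intro p hp
    rw [hg' p hp, Ideal.mem_span_singleton]
    exact Multiset.dvd_prod (Multiset.mem_map_of_mem g (hfin.mem_toFinset.2 hp))
  rw [← Multiset.prod_nsmul] at hN
  have hs : ∀ a ∈ N • hfin.toFinset.val.map g, Prime a := fun a ha => by
    obtain ⟨p, hp, rfl⟩ := Multiset.mem_map.1 (Multiset.mem_of_mem_nsmul ha)
    exact hg p (hfin.mem_toFinset.1 hp)
  generalize N • hfin.toFinset.val.map g = sG at hN hs
  have hG : sG.prod ≠ 0 := Multiset.prod_ne_zero fun h0 => (hs 0 h0).ne_zero rfl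
  have := hM.1
  obtain ⟨p, hp, -⟩ := Ideal.exists_minimalPrimes_le (J := maximalIdeal R)
    (le_maximalIdeal (Module.annihilator_eq_top_iff.not.2 (not_subsingleton M)))
  have hpp : p.IsPrime := hp.1.1
  have hp0 : ⊥ < p := bot_lt_iff_ne_bot.2 (by
    rw [hg' p hp]; exact Ideal.span_singleton_eq_bot.not.2 (hg p hp).ne_zero)
  have hp1 : p < maximalIdeal R := lt_of_le_of_ne (le_maximalIdeal hpp.ne_top) fun e => by
    rw [hg' p hp] at e
    exact h.not_dvd_both (e ▸ Ideal.mem_span_singleton_self _)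
      (Ideal.mem_span_singleton.1 (e ▸ h.x_mem)) (Ideal.mem_span_singleton.1 (e ▸ h.z_mem))
  obtain ⟨c, hc, hcM⟩ := exists_reg p hp0 hp1 hM
  obtain ⟨c', hc', hcT⟩ := exists_reg p hp0 hp1 hT
  obtain ⟨-, ⟨e⟩⟩ := rees (ModuleCat.of R M) [sG.prod] (fun r hr => by
    obtain rfl := List.mem_singleton.1 hr
    exact hN) (ModuleCat.of R R) ((RingTheory.Sequence.isWeaklyRegular_singleton_iff _ _).2
      (IsRegular.of_ne_zero hG).isSMulRegular)
  have h2 : (Ideal.ofList [sG.prod] • ⊤ : Submodule R R) = Ideal.span {sG.prod} := by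
    rw [smul_eq_mul, Ideal.mul_top, Ideal.ofList_singleton]
  have e' := TensorProduct.congr (LinearEquiv.refl R M)
    (e.trans (LinearEquiv.congrRight (Submodule.quotEquivOfEq _ _ h2)))
  obtain ⟨m, π, hπ⟩ := Module.Finite.exists_fin' R M
  have h3 := h.core π hπ sG hs (Module.mem_annihilator.1 hN) hc hcM hc'
    ((e'.isSMulRegular_congr c').1 hcT)
  have hS := LinearMap.shortExact_shortComplexKer hπ
  have hR : Projective (ModuleCat.of R (Fin m → R)) :=
    (IsProjective.iff_projective _).mp inferInstance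
  exact (projectiveDimension_ne_top_iff _).2 ⟨1, (hS.hasProjectiveDimensionLT_X₃_iff 0 hR).2
    (projective_iff_hasProjectiveDimensionLT_one.1 ((IsProjective.iff_projective _).mp h3))⟩

end Pool.Agent.Lib.MP_86e60f_al.An
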