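import Mathlib
import Pool.Agent.Lib.MP_86e60f_al.An.Ring

set_option autoImplicit false

open IsLocalRing CategoryTheory
open scoped TensorProduct

namespace Pool.Agent.Lib.MP_86e60f_al.An

variable {A : Type} [CommRing A]

section Herbrand

variable {W V : Type} [AddCommGroup W] [Module A W] [AddCommGroup V] [Module A V]

theorem exact_on_image (κ : W →ₗ[A] V) (φW ψW : W →ₗ[A] W) (φ ψ : V →ₗ[A] V) {g : A}
    (h1 : ∀ w, κ (φW w) = φ (κ w)) (h2 : ∀ w, κ (ψW w) = ψ (κ w))
    (h3 : ∀ w, φW (ψW w) = g • w) (h4 : ∀ w, ψW (φW w) = g • w) (hg : IsSMulRegular W g)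
    (hk : ∀ w, κ w = 0 → ∃ w', g • w' = w) (w : W) (hw : φ (κ w) = 0) :
    ∃ w', κ w = ψ (κ w') := by
  obtain ⟨w', hw'⟩ := hk _ (by rw [h1, hw])
  refine ⟨w', ?_⟩
  rw [← h2]
  congr 1
  refine hg ?_
  simp only [← h4]
  rw [h3, hw']

theorem herbrand_fin {C : Type} [AddCommGroup C] [Module A C] [IsArtinian A C] [IsNoetherian A C]
    (φ ψ : C →ₗ[A] C) (h1 : LinearMap.range ψ ≤ LinearMap.ker φ)
    (h2 : LinearMap.ker ψ = LinearMap.range φ) : LinearMap.range ψ = LinearMap.ker φ := by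
  have e : ∀ f : C →ₗ[A] C, Module.length A C =
      Module.length A (LinearMap.ker f) + Module.length A (LinearMap.range f) := fun f =>
    Module.length_eq_add_of_exact (LinearMap.ker f).subtype f.rangeRestrict
      (Submodule.injective_subtype _) f.surjective_rangeRestrict (by
        rw [LinearMap.exact_iff, LinearMap.ker_rangeRestrict, Submodule.range_subtype])
  have e1 := (e φ).symm.trans (e ψ)
  rw [h2, add_comm] at e1
  have e2 := (ENat.add_right_injective_of_ne_top Module.length_ne_top) e1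
  by_contra hne
  have := Submodule.height_strictMono (lt_of_le_of_ne h1 hne)
  simp only [← Module.length_submodule] at this
  exact this.ne e2.symm

theorem herbrand (κ : W →ₗ[A] V) (φ ψ : V →ₗ[A] V)
    (h1 : ∀ w, ∃ w', φ (κ w) = κ w') (h2 : ∀ w, ∃ w', ψ (κ w) = κ w')
    (e1 : ∀ w, φ (κ w) = 0 → ∃ w', κ w = ψ (κ w')) (h3 : ∀ v, φ (ψ v) = 0)
    (h4 : ∀ v, ψ (φ v) = 0) [IsArtinian A (V ⧸ LinearMap.range κ)] [IsNoetherian A V]
    (H : ∀ v, ψ v = 0 → ∃ v', φ v' = v) (v : V) (hv : φ v = 0) : ∃ v', ψ v' = v := by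
  let φ' := (LinearMap.range κ).mapQ (LinearMap.range κ) φ (by
    rintro _ ⟨w, rfl⟩
    obtain ⟨w', hw⟩ := h1 w
    exact ⟨w', hw.symm⟩)
  let ψ' := (LinearMap.range κ).mapQ (LinearMap.range κ) ψ (by
    rintro _ ⟨w, rfl⟩
    obtain ⟨w', hw⟩ := h2 w
    exact ⟨w', hw.symm⟩)
  have hφ : ∀ v, φ' (Submodule.Quotient.mk v) = Submodule.Quotient.mk (φ v) := fun v => rfl
  have hψ : ∀ v, ψ' (Submodule.Quotient.mk v) = Submodule.Quotient.mk (ψ v) := fun v => rfl
  have key := herbrand_fin φ' ψ' (by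
    rintro _ ⟨c, rfl⟩
    obtain ⟨c, rfl⟩ := Submodule.Quotient.mk_surjective _ c
    rw [LinearMap.mem_ker, hψ, hφ, h3, Submodule.Quotient.mk_zero]) (by
    refine le_antisymm (fun c hc => ?_) ?_
    · obtain ⟨c, rfl⟩ := Submodule.Quotient.mk_surjective _ c
      rw [LinearMap.mem_ker, hψ, Submodule.Quotient.mk_eq_zero] at hc
      obtain ⟨w, hw⟩ := hc
      obtain ⟨w', hw'⟩ := e1 w (by rw [hw, h3])
      obtain ⟨v', hv'⟩ := H (c - κ w') (by rw [map_sub, ← hw', hw, sub_self])
      exact ⟨Submodule.Quotient.mk v', by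
        rw [hφ, hv', Submodule.Quotient.eq]; exact ⟨-w', by simp⟩⟩
    · rintro _ ⟨c, rfl⟩
      obtain ⟨c, rfl⟩ := Submodule.Quotient.mk_surjective _ c
      rw [LinearMap.mem_ker, hφ, hψ, h4, Submodule.Quotient.mk_zero])
  obtain ⟨c, hc⟩ : Submodule.Quotient.mk v ∈ LinearMap.range ψ' := by
    rw [key, LinearMap.mem_ker, hφ, hv, Submodule.Quotient.mk_zero]
  obtain ⟨c, rfl⟩ := Submodule.Quotient.mk_surjective _ c
  rw [hψ, Submodule.Quotient.eq] at hc
  obtain ⟨w, hw⟩ := hc
  obtain ⟨w', hw'⟩ := e1 w (by rw [hw, map_sub, h3, hv, sub_self])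
  exact ⟨c - κ w', by rw [map_sub, ← hw', hw, sub_sub_cancel]⟩

end Herbrand

theorem artinian_of_pow [IsLocalRing A] [IsNoetherianRing A] {C : Type} [AddCommGroup C]
    [Module A C] [Module.Finite A C] (k : ℕ) (h : ∀ a ∈ maximalIdeal A ^ (k + 1), ∀ c : C, a • c = 0) :
    IsArtinian A C := by
  have h1 : maximalIdeal A ∈ (maximalIdeal A ^ (k + 1)).minimalPrimes := by
    rw [← Ideal.radical_minimalPrimes, Ideal.radical_pow _ (Nat.succ_ne_zero k),
      (maximalIdeal.isMaximal A).isPrime.radical, Ideal.minimalPrimes_eq_subsingleton_self]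
    rfl
  have h2 := IsLocalRing.quotient_artinian_of_mem_minimalPrimes_of_isLocalRing _ h1
  have h3 : Module.IsTorsionBySet A C (maximalIdeal A ^ (k + 1) : Ideal A) := fun c a => h a a.2 c
  let _ := h3.module
  have := h3.isScalarTower (S := A)
  have : Module.Finite (A ⧸ maximalIdeal A ^ (k + 1)) C := Module.Finite.of_restrictScalars_finite A _ _
  exact isArtinian_of_surjective_algebraMap (R := A ⧸ maximalIdeal A ^ (k + 1))
    Ideal.Quotient.mk_surjective

/-- A finite module over a domain contains a free module with torsion quotient. -/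
theorem exists_free_sub {g : A} (hg : Prime g) [IsDomain A] (E : Type) [AddCommGroup E] [Module A E]
    [Module.Finite A E] (hE : ∀ e : E, g • e = 0) :
    ∃ (r : ℕ) (κ : (Fin r → A) →ₗ[A] E) (a : A), ¬ g ∣ a ∧ (∀ e, a • e ∈ LinearMap.range κ) ∧
      ∀ w, κ w = 0 → ∃ w', g • w' = w := by
  classical
  have hp : (Ideal.span {g}).IsPrime := (Ideal.span_singleton_prime hg.ne_zero).2 hg
  have h3 : Module.IsTorsionBySet A E (Ideal.span {g} : Ideal A) := fun c a => by
    obtain ⟨b, hb⟩ := Ideal.mem_span_singleton'.1 a.2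
    rw [← hb, mul_smul, hE, smul_zero]
  let _ := h3.module
  have := h3.isScalarTower (S := A)
  have hm : ∀ (a : A) (e : E), Ideal.Quotient.mk (Ideal.span {g}) a • e = a • e := fun _ _ => rfl
  obtain ⟨t, v, hv⟩ := Module.Finite.exists_fin (R := A) (M := E)
  obtain ⟨s, hs, hs'⟩ := exists_maximal_linearIndepOn (A ⧸ Ideal.span {g}) v
  let ε := (Fintype.equivFin s).symm
  let κ := Fintype.linearCombination A fun l => v (ε l)
  have h1 : ∀ i, ∃ a : A, ¬ g ∣ a ∧ a • v i ∈ LinearMap.range κ := fun i => by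
    by_cases hi : i ∈ s
    · refine ⟨1, hg.not_dvd_one, Pi.single (ε.symm ⟨i, hi⟩) 1, ?_⟩
      simp [κ]
    · obtain ⟨a, ha, ha'⟩ := hs' i hi
      obtain ⟨a, rfl⟩ := Ideal.Quotient.mk_surjective a
      refine ⟨a, fun hd => ha (Ideal.Quotient.eq_zero_iff_mem.2 (Ideal.mem_span_singleton.2 hd)),
        ?_⟩
      rw [← hm]
      refine Submodule.span_induction (fun e he => ?_) (zero_mem _) (fun _ _ _ _ => add_mem)
        (fun b e _ he => ?_) ha'
      · obtain ⟨j, hj, rfl⟩ := he
        exact ⟨Pi.single (ε.symm ⟨j, hj⟩) 1, by simp [κ]⟩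
      · obtain ⟨b, rfl⟩ := Ideal.Quotient.mk_surjective b
        exact Submodule.smul_mem _ b he
  choose a ha ha' using h1
  refine ⟨_, κ, ∏ i, a i, fun hd => ?_, fun e => ?_, fun w hw => ?_⟩
  · obtain ⟨i, -, hi⟩ := (hg.dvd_finsetProd_iff a).1 hd
    exact ha i hi
  · have he : e ∈ Submodule.span A (Set.range v) := hv ▸ trivial
    refine Submodule.span_induction (fun e he => ?_) (by simp) (fun _ _ _ _ h1 h2 => by
      rw [smul_add]; exact add_mem h1 h2) (fun b e _ he => by
      rw [smul_comm]; exact Submodule.smul_mem _ b he) he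
    obtain ⟨i, rfl⟩ := he
    rw [← Finset.prod_erase_mul _ _ (Finset.mem_univ i), mul_smul]
    exact Submodule.smul_mem _ _ (ha' i)
  · have hl : LinearIndependent (A ⧸ Ideal.span {g}) fun l => v (ε l) :=
      LinearIndependent.comp hs ε ε.injective
    have h4 := Fintype.linearIndependent_iff.1 hl (fun l => Ideal.Quotient.mk _ (w l)) (by
      simpa [κ, Fintype.linearCombination_apply, hm] using hw)
    choose w' hw' using fun l =>
      Ideal.mem_span_singleton'.1 (Ideal.Quotient.eq_zero_iff_mem.1 (h4 l))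
    exact ⟨w', funext fun l => by rw [← hw' l, mul_comm]; rfl⟩

variable [IsDomain A] [IsLocalRing A] [IsNoetherianRing A]

theorem IsAn.max_pow_le {x y z : A} {n : ℕ} (h : IsAn A x y z n) {g a : A} (hg : Prime g)
    (ha : ¬ g ∣ a) : ∃ k, maximalIdeal A ^ (k + 1) ≤ Ideal.span {g, a} := by
  classical
  have hp : (Ideal.span {g}).IsPrime := (Ideal.span_singleton_prime hg.ne_zero).2 hg
  obtain ⟨k, hk⟩ := h.max_pow
  have h1 : (maximalIdeal A).height ≤ 2 := by
    refine (Ideal.height_le_card_of_mem_minimalPrimes_span_finset (s := {x, y}) ⟨⟨inferInstance,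
      ?_⟩, fun q hq _ => ?_⟩).trans (by exact_mod_cast Finset.card_le_two)
    · rw [Finset.coe_pair, Ideal.span_le]
      rintro b (rfl | rfl)
      exacts [h.x_mem, h.y_mem]
    · have := hq.1
      exact Ideal.IsPrime.le_of_pow_le (hk.trans (by simpa using hq.2))
  obtain ⟨j, hj⟩ := Ideal.exists_pow_le_of_le_radical_of_fg (I := maximalIdeal A)
    (J := Ideal.span {g, a}) (by
      rw [Ideal.radical_eq_sInf, le_sInf_iff]
      rintro p ⟨hp1, hp2⟩
      by_contra hne
      have e1 := Ideal.height_add_one_le_of_lt_of_isPrime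
        (bot_lt_iff_ne_bot.2 (Ideal.span_singleton_eq_bot.not.2 hg.ne_zero))
      have e2 := Ideal.height_add_one_le_of_lt_of_isPrime (I := Ideal.span {g}) (J := p)
        (lt_of_le_of_ne ((Ideal.span_mono (by simp)).trans hp1) fun e =>
          ha (Ideal.mem_span_singleton.1 (e ▸ hp1 (Ideal.subset_span (by simp)))))
      have e3 := Ideal.height_add_one_le_of_lt_of_isPrime (I := p) (J := maximalIdeal A)
        (lt_of_le_of_ne (le_maximalIdeal hp2.ne_top) fun e => hne e.ge)
      have e4 : (0 + 1 + 1 + 1 : ℕ∞) ≤ 2 :=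
        ((add_le_add_left ((add_le_add_left ((add_le_add_left zero_le 1).trans e1) 1).trans e2)
          1).trans e3).trans h1
      exact absurd e4 (by decide)) (IsNoetherian.noetherian _)
  exact ⟨j, (Ideal.pow_le_pow_right (Nat.le_succ j)).trans hj⟩

/-- The two-periodic case of the Huneke-Wiegand property. -/
theorem free_of_mf {g : A} (hg : Prime g)
    (hdim : ∀ a, ¬ g ∣ a → ∃ k, maximalIdeal A ^ (k + 1) ≤ Ideal.span {g, a}) {m : ℕ}
    (φ ψ : (Fin m → A) →ₗ[A] (Fin m → A)) (h1 : ∀ f, φ (ψ f) = g • f) (h2 : ∀ f, ψ (φ f) = g • f)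
    {M : Type} [AddCommGroup M] [Module A M] [Module (A ⧸ Ideal.span {g}) M]
    [IsScalarTower A (A ⧸ Ideal.span {g}) M] (π : (Fin m → A) →ₗ[A] M)
    (hπ : Function.Surjective π) (hex : Function.Exact φ π) {c : A} (hc : c ∈ maximalIdeal A)
    (hcT : IsSMulRegular (M ⊗[A] (M →ₗ[A] A ⧸ Ideal.span {g})) c) :
    Module.Free (A ⧸ Ideal.span {g}) M := by
  classical
  have : Module.Finite A M := Module.Finite.of_surjective π hπ
  have hg0 : Ideal.Quotient.mk (Ideal.span {g}) g = 0 :=
    Ideal.Quotient.eq_zero_iff_mem.2 (Ideal.mem_span_singleton_self g)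
  have hE : ∀ e : M →ₗ[A] A ⧸ Ideal.span {g}, g • e = 0 := fun e => LinearMap.ext fun v => by
    rw [LinearMap.smul_apply, Algebra.smul_def, Ideal.Quotient.algebraMap_eq, hg0, zero_mul,
      LinearMap.zero_apply]
  have h3 : ∀ p : Fin m, ∃ ε : M →ₗ[A] A ⧸ Ideal.span {g},
      ∀ f, ε (π f) = Ideal.Quotient.mk _ (ψ f p) := fun p => by
    let ψ0 : (Fin m → A) →ₗ[A] A ⧸ Ideal.span {g} := (Ideal.span {g}).mkQ ∘ₗ LinearMap.proj p ∘ₗ ψ
    have hk : LinearMap.ker π ≤ LinearMap.ker ψ0 := fun f hf => by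
      obtain ⟨w, rfl⟩ := (hex f).1 hf
      change Ideal.Quotient.mk _ (ψ (φ w) p) = 0
      rw [h2, Pi.smul_apply, smul_eq_mul, map_mul, hg0, zero_mul]
    exact ⟨(LinearMap.ker π).liftQ ψ0 hk ∘ₗ (π.quotKerEquivOfSurjective hπ).symm.toLinearMap,
      fun f => by
        rw [LinearMap.comp_apply, LinearEquiv.coe_coe, LinearMap.quotKerEquivOfSurjective_symm_apply]
        rfl⟩
  choose ε hε using h3
  have key : ∀ (E : Type) [AddCommGroup E] [Module A E] [Module.Finite A E], (∀ e : E, g • e = 0) →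
      IsSMulRegular (M ⊗[A] E) c → ∀ v, φ.rTensor E v = 0 → ∃ v', ψ.rTensor E v' = v := by
    intro E _ _ _ hE hcT
    obtain ⟨r, κ, a, ha, ha', hκ⟩ := exists_free_sub hg E hE
    obtain ⟨k, hk⟩ := hdim a ha
    have c1 : ∀ (N : Type) [AddCommGroup N] [Module A N] (α β : (Fin m → A) →ₗ[A] (Fin m → A)),
        (∀ f, α (β f) = g • f) → ∀ w, α.rTensor N (β.rTensor N w) = g • w := by
      intro N _ _ α β h w
      rw [← LinearMap.rTensor_comp_apply, show α ∘ₗ β = g • LinearMap.id from LinearMap.ext h,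
        LinearMap.rTensor_smul, LinearMap.rTensor_id]
      rfl
    have c2 : ∀ (α : (Fin m → A) →ₗ[A] (Fin m → A)) w,
        κ.lTensor (Fin m → A) (α.rTensor _ w) = α.rTensor E (κ.lTensor _ w) := fun α w => by
      rw [← LinearMap.comp_apply, ← LinearMap.comp_apply, LinearMap.lTensor_comp_rTensor,
        LinearMap.rTensor_comp_lTensor]
    have c3 : ∀ (N : Type) [AddCommGroup N] [Module A N] (v : N ⊗[A] E), g • v = 0 := by
      intro N _ _ v
      induction v using TensorProduct.induction_on with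
      | zero => simp
      | tmul f e => rw [← TensorProduct.tmul_smul, hE, TensorProduct.tmul_zero]
      | add s t hs ht => rw [smul_add, hs, ht, add_zero]
    have c4 : ∀ v : (Fin m → A) ⊗[A] E, a • v ∈ LinearMap.range (κ.lTensor (Fin m → A)) := by
      intro v
      induction v using TensorProduct.induction_on with
      | zero => simp
      | tmul f e =>
        obtain ⟨w, hw⟩ := ha' e
        exact ⟨f ⊗ₜ w, by rw [LinearMap.lTensor_tmul, hw, TensorProduct.tmul_smul]⟩
      | add s t hs ht => rw [smul_add]; exact add_mem hs ht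
    have c5 : ∀ w, κ.lTensor (Fin m → A) w = 0 → ∃ w', g • w' = w := fun w hw => by
      have hex' : Function.Exact (g • LinearMap.id : (Fin r → A) →ₗ[A] (Fin r → A)) κ := fun w =>
        ⟨hκ w, by rintro ⟨w', rfl⟩; simp [hE]⟩
      obtain ⟨w', hw'⟩ := (Module.Flat.lTensor_exact (Fin m → A) hex' w).1 hw
      exact ⟨w', by rw [← hw', LinearMap.lTensor_smul, LinearMap.lTensor_id]; rfl⟩
    have c6 : IsSMulRegular ((Fin m → A) ⊗[A] (Fin r → A)) g := smul_right_injective _ hg.ne_zero
    have : IsArtinian A (((Fin m → A) ⊗[A] E) ⧸ LinearMap.range (κ.lTensor (Fin m → A))) := by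
      refine artinian_of_pow k fun b hb v => ?_
      obtain ⟨v, rfl⟩ := Submodule.Quotient.mk_surjective _ v
      obtain ⟨s, t, rfl⟩ := Ideal.mem_span_pair.1 (hk hb)
      rw [← Submodule.Quotient.mk_smul, Submodule.Quotient.mk_eq_zero, add_smul, mul_smul, c3,
        smul_zero, zero_add, mul_smul]
      exact Submodule.smul_mem _ _ (c4 v)
    refine herbrand (κ.lTensor (Fin m → A)) _ _ (fun w => ⟨_, (c2 φ w).symm⟩)
      (fun w => ⟨_, (c2 ψ w).symm⟩) (exact_on_image _ _ _ _ _ (c2 φ) (c2 ψ) (c1 _ φ ψ h1)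
        (c1 _ ψ φ h2) c6 c5) (fun v => by rw [c1 _ φ ψ h1, c3]) (fun v => by rw [c1 _ ψ φ h2, c3])
      fun v hv => (rTensor_exact E hex hπ v).1 ((hcT.pow (k + 1)).right_eq_zero_of_smul ?_)
    obtain ⟨s, t, hst⟩ := Ideal.mem_span_pair.1 (hk (Ideal.pow_mem_pow hc (k + 1)))
    obtain ⟨w, hw⟩ := c4 v
    obtain ⟨w', hw'⟩ := exact_on_image _ _ _ _ _ (c2 ψ) (c2 φ) (c1 _ ψ φ h2) (c1 _ φ ψ h1) c6 c5 w
      (by rw [hw, map_smul, hv, smul_zero])
    rw [← hst, add_smul, mul_smul, c3, smul_zero, zero_add, mul_smul, ← map_smul, ← hw, hw',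
      (rTensor_exact E hex hπ).apply_apply_eq_zero, smul_zero]
  obtain ⟨t, ht⟩ := key _ hE hcT (∑ p, (Pi.single p 1 : Fin m → A) ⊗ₜ ε p) (by
    have h4 : ∀ q, ∑ p, φ (Pi.single p 1) q • ε p = 0 := fun q => LinearMap.ext fun v => by
      obtain ⟨f, rfl⟩ := hπ v
      have h5 : φ (ψ f) q = ∑ p, φ (Pi.single p 1) q * ψ f p := by
        conv_lhs => rw [← Finset.univ_sum_single (ψ f), map_sum, Finset.sum_apply]
        refine Finset.sum_congr rfl fun p _ => ?_
        rw [mul_comm, ← smul_eq_mul, ← Pi.smul_apply, ← map_smul, ← Pi.single_smul, smul_eq_mul,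
          mul_one]
      rw [LinearMap.sum_apply, LinearMap.zero_apply]
      simp only [LinearMap.smul_apply, hε, Algebra.smul_def, Ideal.Quotient.algebraMap_eq,
        ← map_mul, ← map_sum, ← h5, h1, Pi.smul_apply, Algebra.algebraMap_self, RingHom.id_apply]
      rw [map_mul, hg0, zero_mul]
    have h6 : ∀ p, φ (Pi.single p 1) ⊗ₜ[A] ε p =
        ∑ q, (Pi.single q 1 : Fin m → A) ⊗ₜ[A] (φ (Pi.single p 1) q • ε p) := fun p => by
      conv_lhs => rw [← Finset.univ_sum_single (φ (Pi.single p 1)), TensorProduct.sum_tmul]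
      refine Finset.sum_congr rfl fun q _ => ?_
      rw [TensorProduct.tmul_smul, TensorProduct.smul_tmul', ← Pi.single_smul, smul_eq_mul, mul_one]
    simp only [map_sum, LinearMap.rTensor_tmul, h6]
    rw [Finset.sum_comm]
    simp only [← TensorProduct.tmul_sum, h4, TensorProduct.tmul_zero, Finset.sum_const_zero])
  obtain ⟨r, f, η, rfl⟩ := TensorProduct.exists_sum_tmul_eq t
  have h7 : ∀ p, ε p = ∑ j, ψ (f j) p • η j := fun p => by
    have := congrArg ((TensorProduct.lid A _).toLinearMap ∘ₗ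
      (LinearMap.proj p : (Fin m → A) →ₗ[A] A).rTensor _) ht
    rw [map_sum _ (fun p => (Pi.single p 1 : Fin m → A) ⊗ₜ[A] ε p), Finset.sum_eq_single p] at this
    · simpa [map_sum] using this.symm
    · intro q _ hq
      simp [Pi.single_eq_of_ne' hq]
    · intro h; exact absurd (Finset.mem_univ _) h
  have h8 : ∀ v, ∑ j, η j v • π (f j) = v := fun v => by
    obtain ⟨u, rfl⟩ := hπ v
    choose a ha using fun j => Ideal.Quotient.mk_surjective (η j (π u))
    have h9 : ∀ p, g ∣ ψ (u - ∑ j, a j • f j) p := fun p => by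
      rw [← Ideal.mem_span_singleton, ← Ideal.Quotient.eq_zero_iff_mem, map_sub, Pi.sub_apply,
        map_sub, ← hε, h7, sub_eq_zero, LinearMap.sum_apply, map_sum, Finset.sum_apply, map_sum]
      refine Finset.sum_congr rfl fun j _ => ?_
      rw [LinearMap.smul_apply, ← ha, map_smul, Pi.smul_apply, smul_eq_mul, map_mul,
        Algebra.smul_def, Ideal.Quotient.algebraMap_eq, mul_comm]
    choose w hw using h9
    have h10 : u - ∑ j, a j • f j = φ w := smul_right_injective _ hg.ne_zero (by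
      simp only [← h1]
      rw [h2, show ψ (u - ∑ j, a j • f j) = g • w from funext hw])
    have h11 := congrArg π h10
    rw [hex.apply_apply_eq_zero, map_sub, sub_eq_zero, map_sum] at h11
    conv_rhs => rw [h11]
    refine Finset.sum_congr rfl fun j _ => ?_
    rw [← ha, map_smul, ← Ideal.Quotient.algebraMap_eq, algebraMap_smul]
  have : Nontrivial (A ⧸ Ideal.span {g}) :=
    Ideal.Quotient.nontrivial_iff.2 (Ideal.span_singleton_ne_top hg.not_isUnit)
  have : IsLocalRing (A ⧸ Ideal.span {g}) := .of_surjective' _ Ideal.Quotient.mk_surjective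
  have : Module.Finite (A ⧸ Ideal.span {g}) M := Module.Finite.of_restrictScalars_finite A _ _
  have : Module.Projective (A ⧸ Ideal.span {g}) M := Module.Projective.of_split
    (LinearMap.pi fun j => (η j).extendScalarsOfSurjective Ideal.Quotient.mk_surjective)
    (Fintype.linearCombination _ fun j => π (f j)) (LinearMap.ext fun v => by
      simpa [Fintype.linearCombination_apply] using h8 v)
  exact Module.free_of_flat_of_isLocalRing

/-- The Huneke-Wiegand property for the domains `A / (g)`. -/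
theorem IsAn.hw [IsAdicComplete (maximalIdeal A) A] {x y z : A} {n : ℕ} (h : IsAn A x y z n)
    {g : A} (hg : Prime g) (M : Type) [AddCommGroup M] [Module A M]
    [Module (A ⧸ Ideal.span {g}) M] [IsScalarTower A (A ⧸ Ideal.span {g}) M] [Module.Finite A M]
    (hM : IsCMOfCodim A M 1)
    (hT : IsCMOfCodim A (M ⊗[A] Abelian.Ext.{0} (ModuleCat.of A M) (ModuleCat.of A A) 1) 1) :
    Module.Free (A ⧸ Ideal.span {g}) M ∧ projectiveDimension (ModuleCat.of A M) ≠ ⊤ := by
  have hp : (Ideal.span {g}).IsPrime := (Ideal.span_singleton_prime hg.ne_zero).2 hg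
  have hgM : ∀ v : M, g • v = 0 := fun v => by
    rw [← algebraMap_smul (A ⧸ Ideal.span {g}), Ideal.Quotient.algebraMap_eq,
      Ideal.Quotient.eq_zero_iff_mem.2 (Ideal.mem_span_singleton_self g), zero_smul]
  have hp0 : ⊥ < Ideal.span {g} :=
    bot_lt_iff_ne_bot.2 (Ideal.span_singleton_eq_bot.not.2 hg.ne_zero)
  have hp1 : Ideal.span {g} < maximalIdeal A :=
    lt_of_le_of_ne (le_maximalIdeal hp.ne_top) fun e =>
      h.not_dvd_both (e ▸ Ideal.mem_span_singleton_self _)
        (Ideal.mem_span_singleton.1 (e ▸ h.x_mem)) (Ideal.mem_span_singleton.1 (e ▸ h.z_mem))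
  obtain ⟨c, hc, hcM⟩ := exists_reg _ hp0 hp1 hM
  obtain ⟨c', hc', hcT⟩ := exists_reg _ hp0 hp1 hT
  obtain ⟨-, ⟨e⟩⟩ := rees (ModuleCat.of A M) [g] (fun r hr => by
    obtain rfl := List.mem_singleton.1 hr
    exact Module.mem_annihilator.2 hgM) (ModuleCat.of A A)
    ((RingTheory.Sequence.isWeaklyRegular_singleton_iff _ _).2
      (IsRegular.of_ne_zero hg.ne_zero).isSMulRegular)
  have h2 : (Ideal.ofList [g] • ⊤ : Submodule A A) = Ideal.span {g} := by
    rw [smul_eq_mul, Ideal.mul_top, Ideal.ofList_singleton]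
  have e' := TensorProduct.congr (LinearEquiv.refl A M)
    (e.trans (LinearEquiv.congrRight (Submodule.quotEquivOfEq _ _ h2)))
  have hcT' := (e'.isSMulRegular_congr c').1 hcT
  obtain ⟨m, π, hπ⟩ := Module.Finite.exists_fin' A M
  have h3 := h.core π hπ {g} (by simpa using hg) (by simpa using hgM) hc hcM hc'
    (by rwa [Multiset.prod_singleton])
  refine ⟨?_, ?_⟩
  · have : Module.Free A (LinearMap.ker π) := Module.free_of_flat_of_isLocalRing
    let μ : (Fin m → A) →ₗ[A] LinearMap.ker π :=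
      (g • LinearMap.id : (Fin m → A) →ₗ[A] (Fin m → A)).codRestrict _ fun f => by simp [hgM]
    have hμ : Function.Injective μ := fun a b e =>
      smul_right_injective _ hg.ne_zero (congrArg Subtype.val e)
    let κ := LinearEquiv.ofFinrankEq (Fin m → A) (LinearMap.ker π) (le_antisymm
      (LinearMap.finrank_le_finrank_of_injective hμ)
      (LinearMap.finrank_le_finrank_of_injective (LinearMap.ker π).injective_subtype))
    refine free_of_mf hg (fun a ha => h.max_pow_le hg ha)
      ((LinearMap.ker π).subtype ∘ₗ κ.toLinearMap) (κ.symm.toLinearMap ∘ₗ μ) (fun f => ?_)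
      (fun f => ?_) π hπ (fun f => ⟨fun hf => ⟨κ.symm ⟨f, hf⟩, by simp⟩, ?_⟩) hc' hcT'
    · simp only [LinearMap.comp_apply, LinearEquiv.coe_coe, LinearEquiv.apply_symm_apply]
      rfl
    · have h4 : μ (κ f) = g • κ f := Subtype.ext rfl
      change κ.symm (μ (κ f)) = _
      rw [h4, map_smul, LinearEquiv.symm_apply_apply]
    · rintro ⟨w, rfl⟩
      exact (κ w).2
  · have hS := LinearMap.shortExact_shortComplexKer hπ
    have hR : Projective (ModuleCat.of A (Fin m → A)) :=
      (IsProjective.iff_projective _).mp inferInstance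
    exact (projectiveDimension_ne_top_iff _).2 ⟨1, (hS.hasProjectiveDimensionLT_X₃_iff 0 hR).2
      (projective_iff_hasProjectiveDimensionLT_one.1 ((IsProjective.iff_projective _).mp h3))⟩

end Pool.Agent.Lib.MP_86e60f_al.An
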